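import Pool.Agent.X250.RT.Hecke2

/-!
# Deformations with weights which depend on the orbit
-/

set_option autoImplicit false
set_option linter.unusedSectionVars false

open scoped Matrix ENNReal InnerProductSpace Topology

namespace Pool.Agent.X250.RF

open Pool.Agent.W907.SG Pool.Agent.W461.SGN
open Pool.Agent.X250.ZS (Hl sm sm_sm sm_inv sm_inj nn w_ind nn_one nn_left nn_right_self nn_right_adj nn_inv conj_eq
  pj pj_apply kp kp_congr kp_add kp_mul mm pj_idem tr tr_apply zm pr Ra La dl dl_apply two_pos' ps qs RW gs)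
open Pool.Agent.X250.RT

variable {V : Type} {G : SimpleGraph V} {π : Type} [Group π] [MulAction π V]
  {φ : π →* MulAut (W G)} (hφ : Com φ)

open Classical in
/-- the weights -/
noncomputable def ow (O : Set V) (x : ℝ) (s : V) : ℝ := if s ∈ O then cl x else 1 / 2

theorem ow0 (O : Set V) (x : ℝ) (s : V) : 0 ≤ ow O x s := by
  unfold ow
  split_ifs
  · exact cl0 x
  · norm_num

theorem ow1 (O : Set V) (x : ℝ) (s : V) : ow O x s ≤ 1 := by
  unfold ow
  split_ifs
  · exact cl1 x
  · norm_num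

theorem ow_half (O : Set V) (s : V) : ow O (1 / 2) s = 1 / 2 := by
  unfold ow
  split_ifs
  · exact cl_eq (by norm_num) (by norm_num)
  · rfl

theorem ow_cont (O : Set V) (s : V) : Continuous fun x => ow O x s := by
  unfold ow
  split_ifs
  · exact cl_cont
  · exact continuous_const

variable {O : Set V} (hO : ∀ (g : π) (s : V), g • s ∈ O ↔ s ∈ O)

include hO in
theorem ow_smul (x : ℝ) (g : π) (s : V) : ow O x (g • s) = ow O x s := by
  unfold ow
  by_cases h : s ∈ O
  · rw [if_pos h, if_pos ((hO g s).2 h)]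
  · rw [if_neg h, if_neg (fun h' => h ((hO g s).1 h'))]

include hφ in
theorem prP_comm' (x y : ℝ) (s t : V) (h : G.Adj s t) : prP φ x s * prP φ y t = prP φ y t * prP φ x s := by
  refine ContinuousLinearMap.ext fun f => Subtype.ext (funext fun p => ?_)
  show (prP φ x s (prP φ y t f) : SP φ → ℂ) p = (prP φ y t (prP φ x s f) : SP φ → ℂ) p
  unfold prP
  rw [pj_apply, pj_apply, pj_apply, pj_apply, pj_apply, pj_apply]
  have h1 : rP t (rP s p) = rP s (rP t p) := by
    rw [rP_apply, rP_apply, rP_apply, rP_apply, mul_assoc, mul_assoc, ← map_mul, ← map_mul, simple_comm G s t h]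
  have key : ∀ (x : ℝ) s t, G.Adj s t → kp (AP (φ := φ) s) x (rP t p) = kp (AP s) x p := by
    intro x s t h
    have : rP t p ∈ AP (φ := φ) s ↔ p ∈ AP (φ := φ) s := by
      show nn G (rP t p).left (sm G ((rP t p).right • s)) = 0 ↔ nn G p.left (sm G (p.right • s)) = 0
      rw [rP_left hφ, rP_right, nn_right_adj G _ _ _ (hφ.adj _ _ _ h)]
    exact kp_congr this
  rw [h1, key x s t h, key y t s h.symm]
  ring

include hφ hO in
theorem prP_plP' (x : ℝ) (s t : V) :
    prP φ (ow O x s) s * plP φ (ow O x t) t = plP φ (ow O x t) t * prP φ (ow O x s) s := by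
  classical
  refine ContinuousLinearMap.ext fun f => Subtype.ext (funext fun p => ?_)
  show (prP φ (ow O x s) s (plP φ (ow O x t) t f) : SP φ → ℂ) p =
    (plP φ (ow O x t) t (prP φ (ow O x s) s f) : SP φ → ℂ) p
  unfold prP plP
  rw [pj_apply, pj_apply, pj_apply, pj_apply, pj_apply, pj_apply]
  have h1 : lP t (rP s p) = rP s (lP t p) := by
    rw [rP_apply, lP_apply, rP_apply, lP_apply, mul_assoc]
  rw [h1]
  by_cases h : sm G t * p.left = p.left * sm G (p.right • s)
  · have h0 := conj_eq G h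
    have hw : ow O x t = ow O x s := by
      rw [← ow_smul hO x p.right s, h0]
    rw [hw]
    have h2 : lP t p = rP s p := by
      refine SemidirectProduct.ext ?_ ?_
      · rw [lP_left, rP_left hφ, h]
      · rw [lP_right, rP_right]
    have h3 := kp_add (AP_rP hφ s) (ow O x s) p
    have h4 := kp_add (BP_lP (φ := φ) t) (ow O x s) p
    have h5 : kp (AP s) (ow O x s) p = kp (BP t) (ow O x s) p := by
      have : p ∈ AP (φ := φ) s ↔ p ∈ BP (φ := φ) t := by
        show nn G p.left (sm G (p.right • s)) = 0 ↔ nn G p.left⁻¹ (sm G t) = 0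
        rw [← h0] at h ⊢
        rw [nn_inv G p.left t h]
      exact kp_congr this
    rw [h2] at h4 ⊢
    linear_combination ((mm (ow O x s) : ℂ) * (f : SP φ → ℂ) (rP s p)) * (h4 - h3 + 2 * h5)
  · have h2 : kp (AP s) (ow O x s) (lP t p) = kp (AP s) (ow O x s) p := by
      have : lP t p ∈ AP (φ := φ) s ↔ p ∈ AP (φ := φ) s := by
        show nn G (lP t p).left (sm G ((lP t p).right • s)) = 0 ↔ nn G p.left (sm G (p.right • s)) = 0
        rw [lP_left, lP_right, nn_left, if_neg h, add_zero]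
      exact kp_congr this
    have h3 : kp (BP t) (ow O x t) (rP s p) = kp (BP t) (ow O x t) p := by
      have : rP s p ∈ BP (φ := φ) t ↔ p ∈ BP (φ := φ) t := by
        show nn G (rP s p).left⁻¹ (sm G t) = 0 ↔ nn G p.left⁻¹ (sm G t) = 0
        have h4 : ¬ sm G (p.right • s) * p.left⁻¹ = p.left⁻¹ * sm G t := by
          intro h4
          apply h
          have h5 := congrArg (·⁻¹) h4
          simp only [mul_inv_rev, inv_inv, sm_inv] at h5
          exact h5.symm
        rw [rP_left hφ, mul_inv_rev, sm_inv, nn_left, if_neg h4, add_zero]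
      exact kp_congr this
    rw [h2, h3]
    ring

/-! ### the algebra -/

/-- the commutant -/
def Cm (φ : π →* MulAut (W G)) (O : Set V) (x : ℝ) (c : OP (SP φ)) : Prop :=
  (∀ s, c * prP φ (ow O x s) s = prP φ (ow O x s) s * c) ∧ ∀ h, c * Rh φ h = Rh φ h * c

/-- the good operators -/
def GP (φ : π →* MulAut (W G)) (O : Set V) (x : ℝ) : Subalgebra ℂ (OP (SP φ)) where
  carrier := {a | (∃ a' : OP (SP φ), Cm φ O x a' ∧ a dP = a' dP ∧
    ∀ f : Hl (SP φ), (a f : SP φ → ℂ) 1 = (a' f : SP φ → ℂ) 1) ∧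
    ∀ c : OP (SP φ), Cm φ O x c → c * a = a * c}
  mul_mem' := by
    rintro a b ⟨⟨a', h1, h2, h3⟩, h4⟩ ⟨⟨b', k1, k2, k3⟩, k4⟩
    refine ⟨⟨b' * a', ⟨fun s => ?_, fun h => ?_⟩, ?_, fun f => ?_⟩, fun c hc => ?_⟩
    · rw [mul_assoc, h1.1, ← mul_assoc, k1.1, mul_assoc]
    · rw [mul_assoc, h1.2, ← mul_assoc, k1.2, mul_assoc]
    · show a (b dP) = b' (a' dP)
      have e1 : a (b' dP) = b' (a dP) := (congrArg (fun T : OP (SP φ) => T dP) (h4 b' k1)).symm
      rw [k2, e1, h2]
    · show (a (b f) : SP φ → ℂ) 1 = (b' (a' f) : SP φ → ℂ) 1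
      have e1 : a' (b f) = b (a' f) := congrArg (fun T : OP (SP φ) => T f) (k4 a' h1)
      rw [h3, e1, k3]
    · rw [← mul_assoc, h4 c hc, mul_assoc, k4 c hc, mul_assoc]
  add_mem' := by
    rintro a b ⟨⟨a', h1, h2, h3⟩, h4⟩ ⟨⟨b', k1, k2, k3⟩, k4⟩
    refine ⟨⟨a' + b', ⟨fun s => ?_, fun h => ?_⟩, ?_, fun f => ?_⟩, fun c hc => ?_⟩
    · rw [add_mul, mul_add, h1.1, k1.1]
    · rw [add_mul, mul_add, h1.2, k1.2]
    · show a dP + b dP = a' dP + b' dP
      rw [h2, k2]
    · show (a f : SP φ → ℂ) 1 + (b f : SP φ → ℂ) 1 = (a' f : SP φ → ℂ) 1 + (b' f : SP φ → ℂ) 1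
      rw [h3, k3]
    · rw [add_mul, mul_add, h4 c hc, k4 c hc]
  algebraMap_mem' := by
    intro r
    refine ⟨⟨algebraMap ℂ (OP (SP φ)) r, ⟨fun s => Algebra.commutes _ _, fun h => Algebra.commutes _ _⟩, rfl,
      fun f => rfl⟩, fun c hc => (Algebra.commutes _ _).symm⟩

include hφ hO in
theorem prP_mem (x : ℝ) (s : V) : prP φ (ow O x s) s ∈ GP φ O x := by
  refine ⟨⟨plP φ (ow O x s) s, ⟨fun t => (prP_plP' hφ hO x t s).symm, fun h => plP_Rh _ h s⟩, prP_dP _ s,
    fun f => ?_⟩, fun c hc => hc.1 s⟩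
  unfold prP plP
  rw [← eval_dP, ← eval_dP, ← Pool.Agent.X250.ZS.inner_pj (rP_rP s), ← Pool.Agent.X250.ZS.inner_pj (lP_lP s)]
  have := prP_dP (φ := φ) (ow O x s) s
  unfold prP plP at this
  rw [this]

include hφ in
theorem Rh_mem (x : ℝ) (h : π) : Rh φ h ∈ GP φ O x := by
  refine ⟨⟨Lh φ h, ⟨fun t => Lh_prP hφ _ h t, fun k => Lh_Rh h k⟩, Rh_dP h, fun f => ?_⟩, fun c hc => hc.2 h⟩
  rw [Rh_apply, Lh_apply, one_mul, mul_one]

theorem tau_comm {x : ℝ} {a b : OP (SP φ)} (ha : a ∈ GP φ O x) (hb : b ∈ GP φ O x) : tau (a * b) = tau (b * a) := by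
  obtain ⟨⟨a', h1, h2, h3⟩, h4⟩ := ha
  obtain ⟨_, k4⟩ := hb
  have e1 : a' (b dP) = b (a' dP) := congrArg (fun T : OP (SP φ) => T dP) (k4 a' h1)
  show (a (b dP) : SP φ → ℂ) 1 = (b (a dP) : SP φ → ℂ) 1
  rw [h3, e1, h2]

/-! ### the representation -/

/-- the symmetries -/
noncomputable def us (φ : π →* MulAut (W G)) (O : Set V) (x : ℝ) (s : V) : OP (SP φ) :=
  1 - (2 : ℂ) • prP φ (ow O x s) s

include hφ in
theorem us_sq (x : ℝ) (s : V) : us φ O x s * us φ O x s = 1 := by
  unfold us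
  simp only [mul_sub, sub_mul, mul_one, one_mul, smul_mul_smul_comm, prP_idem hφ (ow0 O x s) (ow1 O x s)]
  module

include hφ in
theorem us_comm (x : ℝ) (s t : V) (h : G.Adj s t) : us φ O x s * us φ O x t = us φ O x t * us φ O x s := by
  unfold us
  simp only [mul_sub, sub_mul, mul_one, one_mul, smul_mul_smul_comm, prP_comm' hφ _ _ s t h]
  abel

/-- the representation of the Coxeter group -/
noncomputable def UW (O : Set V) (x : ℝ) : W G →* OP (SP φ) :=
  (cox G).toCoxeterSystem.lift ⟨us φ O x, liftable G _ (us_sq hφ x) (us_comm hφ x)⟩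

theorem UW_sm (x : ℝ) (v : V) : UW hφ O x (sm G v) = us φ O x v := CoxeterSystem.lift_apply_simple _ _ v

include hφ hO in
theorem Rh_us (x : ℝ) (h : π) (s : V) : Rh φ h * us φ O x s = us φ O x (h • s) * Rh φ h := by
  unfold us
  rw [mul_sub, sub_mul, mul_one, one_mul, mul_smul_comm, smul_mul_assoc, Rh_prP hφ, ow_smul hO]

include hO in
theorem Rh_UW (x : ℝ) (h : π) (w : W G) : Rh φ h * UW hφ O x w = UW hφ O x (φ h w) * Rh φ h := by
  refine w_ind G (p := fun w => Rh φ h * UW hφ O x w = UW hφ O x (φ h w) * Rh φ h) w ?_ ?_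
  · rw [map_one, map_one, map_one, mul_one, one_mul]
  · intro w v ih
    rw [map_mul, map_mul, map_mul, hφ.sm, UW_sm, UW_sm, ← mul_assoc, Rh_us hφ hO, mul_assoc, ih, mul_assoc]

/-- the representation of the semidirect product -/
noncomputable def UP (x : ℝ) : SP φ →* OP (SP φ) where
  toFun p := UW hφ O x p.left * Rh φ p.right
  map_one' := by
    show UW hφ O x 1 * Rh φ 1 = 1
    unfold Rh
    rw [map_one, map_one, map_one, one_mul]
  map_mul' p q := by
    show UW hφ O x (p.left * φ p.right q.left) * Rh φ (p.right * q.right) =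
      UW hφ O x p.left * Rh φ p.right * (UW hφ O x q.left * Rh φ q.right)
    rw [map_mul, Rh_mul, mul_assoc, mul_assoc, ← mul_assoc (Rh φ p.right), Rh_UW hφ hO, mul_assoc]

/-- the representations of the group algebra -/
noncomputable def TH (x : ℝ) : MonoidAlgebra ℂ (SP φ) →+* OP (SP φ) :=
  (MonoidAlgebra.lift ℂ (OP (SP φ)) (SP φ) (UP hφ hO x)).toRingHom

theorem TH_single (x : ℝ) (p : SP φ) (c : ℂ) : TH hφ hO x (MonoidAlgebra.single p c) = c • UP hφ hO x p := by
  show MonoidAlgebra.lift ℂ (OP (SP φ)) (SP φ) (UP hφ hO x) (MonoidAlgebra.single p c) = _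
  rw [MonoidAlgebra.lift_single]

include hφ hO in
theorem us_mem (x : ℝ) (s : V) : us φ O x s ∈ GP φ O x :=
  sub_mem (one_mem _) (Subalgebra.smul_mem _ (prP_mem hφ hO _ s) _)

include hO in
theorem UW_mem (x : ℝ) (w : W G) : UW hφ O x w ∈ GP φ O x := by
  refine w_ind G (p := fun w => UW hφ O x w ∈ GP φ O x) w ?_ ?_
  · rw [map_one]
    exact one_mem _
  · intro w v ih
    rw [map_mul, UW_sm]
    exact mul_mem (us_mem hφ hO x v) ih

theorem TH_mem (x : ℝ) (a : MonoidAlgebra ℂ (SP φ)) : TH hφ hO x a ∈ GP φ O x := by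
  induction a using MonoidAlgebra.induction_linear with
  | zero =>
    rw [map_zero]
    exact zero_mem _
  | add a b ha hb =>
    rw [map_add]
    exact add_mem ha hb
  | single p c =>
    rw [TH_single]
    exact Subalgebra.smul_mem _ (mul_mem (UW_mem hφ hO x _) (Rh_mem hφ _ _)) _

theorem TH_comm (x : ℝ) (a b : MonoidAlgebra ℂ (SP φ)) : tau (TH hφ hO x (a * b)) = tau (TH hφ hO x (b * a)) := by
  rw [map_mul, map_mul]
  exact tau_comm (TH_mem hφ hO x a) (TH_mem hφ hO x b)

theorem us_cont (s : V) : Continuous fun x => us φ O x s := by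
  unfold us prP pj mm
  have := ow_cont O s
  fun_prop

theorem UW_cont (w : W G) : Continuous fun x => UW hφ O x w := by
  refine w_ind G (p := fun w => Continuous fun x => UW hφ O x w) w ?_ ?_
  · simp only [map_one]
    exact continuous_const
  · intro w v ih
    simp only [map_mul, UW_sm]
    exact (us_cont v).mul ih

theorem TH_cont (a : MonoidAlgebra ℂ (SP φ)) : Continuous fun x => TH hφ hO x a := by
  induction a using MonoidAlgebra.induction_linear with
  | zero =>
    simp only [map_zero]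
    exact continuous_const
  | add a b ha hb =>
    simp only [map_add]
    exact ha.add hb
  | single p c =>
    simp only [TH_single]
    exact ((UW_cont hφ _).mul continuous_const).const_smul c

theorem us_half (s : V) : us φ O (1 / 2) s = rr (SemidirectProduct.inl (sm G s)) := by
  rw [← Pool.Agent.X250.RT.us_half]
  unfold us Pool.Agent.X250.RT.us
  rw [ow_half, cl_eq (by norm_num) (by norm_num)]

theorem UW_half (w : W G) : UW hφ O (1 / 2) w = rr (SemidirectProduct.inl w) := by
  refine w_ind G (p := fun w => UW hφ O (1 / 2) w = rr (SemidirectProduct.inl w)) w ?_ ?_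
  · rw [map_one, map_one, map_one]
  · intro w v ih
    rw [map_mul, UW_sm, ih, map_mul, map_mul, us_half]

theorem TH_half (a : MonoidAlgebra ℂ (SP φ)) : TH hφ hO (1 / 2) a = reg a := by
  induction a using MonoidAlgebra.induction_linear with
  | zero => rw [map_zero, map_zero]
  | add a b ha hb => rw [map_add, map_add, ha, hb]
  | single p c =>
    rw [TH_single, reg_single]
    congr 1
    show UW hφ O (1 / 2) p.left * Rh φ p.right = _
    rw [UW_half]
    unfold Rh
    rw [← map_mul, SemidirectProduct.inl_left_mul_inr_right]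

theorem TH_ps (x : ℝ) (s : V) : TH hφ hO x (qc (iW φ (ps G s))) = prP φ (ow O x s) s := by
  have h2 : TH hφ hO x (qc (iW φ (ps G s))) = ((1 / 2 : ℚ) : ℂ) • (1 - us φ O x s) := by
    unfold ps qs
    have e : ((1 / 2 : ℚ) • (1 - gs G (sm G s)) : RW G) = MonoidAlgebra.single 1 (1 / 2) -
        MonoidAlgebra.single (sm G s) (1 / 2) := by
      rw [smul_sub, MonoidAlgebra.smul_single', mul_one]
      congr 1
      rw [MonoidAlgebra.one_def, MonoidAlgebra.smul_single', mul_one]
    rw [e, map_sub, map_sub, map_sub, iW_single, iW_single, qc_single, qc_single, TH_single, TH_single, map_one,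
      map_one, smul_sub]
    congr 2
    show UW hφ O x (sm G s) * Rh φ 1 = us φ O x s
    unfold Rh
    rw [UW_sm, map_one, map_one, mul_one]
  rw [h2]
  unfold us
  push_cast
  module

/-- the traces of the projections -/
theorem tau_ps (x : ℝ) (s : V) : tau (TH hφ hO x (qc (iW φ (ps G s)))) = ((ow O x s : ℝ) : ℂ) := by
  classical
  rw [TH_ps]
  show (prP φ (ow O x s) s dP : SP φ → ℂ) 1 = _
  unfold prP
  rw [pj_apply]
  have h1 : (1 : SP φ) ∈ AP (φ := φ) s := nn_one G _
  have h2 : rP (φ := φ) s 1 ≠ 1 := by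
    intro h
    have h3 := (AP_rP hφ s 1).1 (by rw [h]; exact h1)
    exact h3 h1
  rw [dP_ne h2]
  have h3 : (dP : Hl (SP φ)) 1 = 1 := by rw [dP_apply, if_pos rfl]
  have h4 : kp (AP (φ := φ) s) (ow O x s) 1 = ow O x s := by
    unfold kp
    rw [if_pos h1]
  rw [h3, h4]
  ring

theorem tau_one (x : ℝ) : tau (TH hφ hO x (qc 1)) = 1 := by
  classical
  rw [map_one, map_one]
  show (dP : Hl (SP φ)) 1 = 1
  rw [dP_apply, if_pos rfl]

end Pool.Agent.X250.RF
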