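import Pool.Agent.X250.RF.Dz
import Pool.Agent.X250.RF.Hecke

/-!
# The resolution
-/

set_option autoImplicit false
set_option linter.unusedSectionVars false

namespace Pool.Agent.X250.RF

open Pool.Agent.W907.SG Pool.Agent.W461.SGN
open Pool.Agent.H919R4.ZS (FinRes augm)
open Pool.Agent.X250.ZS (Cx sm sm_sm sm_inv sm_inj ps qs cp cp_empty cp_insert cp_neg ps_comm ps_idem cp_idem cp_sub
  RW gs gs_mul cl_sub cl_ins ext_exact exists_lift w_ind)
open Pool.Agent.X250.RT

variable {V : Type} {G : SimpleGraph V} {π : Type} [Group π] [MulAction π V] {φ : π →* MulAut (W G)}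
  [DecidableEq V] (hφ : Com φ) (hG : ∀ a b, ¬ G.Adj a b) (D : Dat π V)

/-- an upper bound of the lengths -/
def len0 (D : Dat π V) (Y : FinRes π) : ℕ := Y.len + ∑ u : ↥D.F, (D.Z u).len

theorem len0_u (Y : FinRes π) (u : ↥D.F) : (D.Z u).len ≤ len0 D Y := by
  have := Finset.single_le_sum (f := fun u : ↥D.F => (D.Z u).len) (fun _ _ => Nat.zero_le _) (Finset.mem_univ u)
  unfold len0
  omega

theorem put_mem (m : ℕ) (z : ∀ u : ↥D.F, Fin ((D.Z u).n m) → RP (SP φ))
    (hz : ∀ u j, z u j * pv φ (u : V) = z u j) : put m z ∈ Dz φ D (m + 1) := by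
  rintro ⟨u', m', j⟩
  by_cases hm : m' = m
  · subst hm
    refine ⟨?_, fun h => absurd rfl h⟩
    show put m' z ⟨u', m', j⟩ * pv φ (u' : V) = put m' z ⟨u', m', j⟩
    rw [put_same, hz]
  · have h1 : put m z ⟨u', m', j⟩ = 0 := put_ne m z hm
    rw [h1]
    exact ⟨zero_mul _, fun _ => rfl⟩

/-- the shifted complex -/
noncomputable def Dsz : Cx (RP (SP φ)) where
  M n := Dz φ D (n + 1)
  d n := dz.restrict fun _ hx => dz_mem hφ hx
  dd n x := Subtype.ext (dz_dz x.1)

/-- the product of a presentation with a free module -/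
noncomputable def fpProd {R M : Type} [Ring R] [AddCommGroup M] [Module R M] (p : FP R M) (m : ℕ) :
    FP R (M × (Fin m → R)) where
  k := p.k ⊕ Fin m
  i :=
    { toFun := fun x => Sum.elim (p.i x.1) x.2
      map_add' := fun x y => by
        funext j
        rcases j with j | j
        · show p.i (x.1 + y.1) j = _
          rw [map_add]
          rfl
        · rfl
      map_smul' := fun c x => by
        funext j
        rcases j with j | j
        · show p.i (c • x.1) j = _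
          rw [map_smul]
          rfl
        · rfl }
  r := LinearMap.prod (p.r ∘ₗ LinearMap.funLeft _ _ Sum.inl) (LinearMap.funLeft _ _ Sum.inr)
  ri := fun x => Prod.ext (p.ri x.1) rfl

theorem fpProd_rank {R M : Type} [Ring R] [AddCommGroup M] [Module R M] (p : FP R M) (m : ℕ) (θ : R →+ ℂ) :
    Tt θ (fpProd p m) LinearMap.id = Tt θ p LinearMap.id + m * θ 1 := by
  have h0 : Tt θ (fpProd p m) LinearMap.id = ∑ j : p.k ⊕ Fin m,
      θ (((fpProd p m).i ∘ₗ LinearMap.id ∘ₗ (fpProd p m).r) (Pi.single j 1) j) := rfl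
  rw [h0, Fintype.sum_sum_type]
  congr 1
  · unfold Tt tm
    refine Finset.sum_congr rfl fun j _ => congrArg θ ?_
    show p.i (p.r ((Pi.single (Sum.inl j) 1 : p.k ⊕ Fin m → R) ∘ Sum.inl)) j = p.i (p.r (Pi.single j 1)) j
    have h1 : (Pi.single (Sum.inl j) 1 : p.k ⊕ Fin m → R) ∘ Sum.inl = Pi.single j 1 := by
      funext k
      rw [Function.comp_apply]
      by_cases h : k = j
      · subst h
        rw [Pi.single_eq_same, Pi.single_eq_same]
      · rw [Pi.single_eq_of_ne h, Pi.single_eq_of_ne (fun h' => h (Sum.inl.inj h'))]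
    rw [h1]
  · have h1 : ∀ j : Fin m, θ (((fpProd p m).i ∘ₗ LinearMap.id ∘ₗ (fpProd p m).r) (Pi.single (Sum.inr j) 1) (Sum.inr j)) =
        θ 1 := by
      intro j
      refine congrArg θ ?_
      show (Pi.single (Sum.inr j) 1 : p.k ⊕ Fin m → R) (Sum.inr j) = 1
      rw [Pi.single_eq_same]
    rw [Finset.sum_congr rfl fun j _ => h1 j, Finset.sum_const, Finset.card_univ, Fintype.card_fin, nsmul_eq_mul]

include hφ in
theorem cdata (Y : FinRes π) (y0 : Fin (Y.n 0) → RP (SP φ)) (hka : ∀ c : RP (SP φ), ka φ c = 0 →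
    ∃ y : Fin (Y.n 1) → RP (SP φ), Matrix.vecMul y ((Y.d 0).map (ip φ)) = c • y0) :
    ∃ (dl : ∀ n, (Dz φ D (n + 1)) →ₗ[RP (SP φ)] (Dz φ D n))
      (Yd : ∀ n, (Fin (Y.n (n + 1)) → RP (SP φ)) →ₗ[RP (SP φ)] (Fin (Y.n n) → RP (SP φ)))
      (lam : ∀ n, (Dz φ D (n + 1)) →ₗ[RP (SP φ)] (Fin (Y.n n) → RP (SP φ))),
      (∀ n x, (dl n x).1 = dz x.1) ∧ (∀ n x, Yd n (Yd (n + 1) x) = 0) ∧
      (∀ n x, Yd n x = 0 → ∃ y, Yd (n + 1) y = x) ∧ (∀ x, Yd 0 x = Matrix.vecMul x ((Y.d 0).map (ip φ))) ∧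
      (∀ a, lam 0 a = sZ φ D a.1 • y0) ∧ ∀ n x, Yd n (lam (n + 1) x) = lam n (dl (n + 1) x) := by
  obtain ⟨l0, hl0⟩ : ∃ l0 : (Dsz hφ D).M 0 →ₗ[RP (SP φ)] (Yc φ Y).M 0, ∀ a, l0 a = sZ φ D a.1 • y0 :=
    ⟨(LinearMap.toSpanSingleton (RP (SP φ)) (Fin (Y.n 0) → RP (SP φ)) y0) ∘ₗ sZ φ D ∘ₗ (Dz φ D 1).subtype,
      fun a => rfl⟩
  have hproj : ∀ n, Module.Projective (RP (SP φ)) (Dz φ D n) := fun n =>
    Module.Projective.of_split (fpZ φ D _ (len0_u D Y) n).i (fpZ φ D _ (len0_u D Y) n).r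
      (LinearMap.ext fun x => (fpZ φ D _ (len0_u D Y) n).ri x)
  obtain ⟨lam, hlam0, hlam⟩ := exists_lift (Dsz hφ D) (Yc φ Y) (fun n => hproj (n + 1)) (Yc_ex Y) l0
    (fun x => by
      rw [hl0]
      exact hka _ (ka_dz x.1))
  exact ⟨fun n => dz.restrict fun _ hx => dz_mem hφ hx, (Yc φ Y).d, lam, fun n x => rfl, (Yc φ Y).dd,
    Yc_ex Y, fun x => rfl, fun a => (LinearMap.congr_fun hlam0 a).trans (hl0 a), hlam⟩

include hφ hG in
theorem cone (Y : FinRes π) : ∃ (C : Cx (RP (SP φ))) (p : ∀ n, FP (RP (SP φ)) (C.M n))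
    (β : C.M 0 →ₗ[RP (SP φ)] RP (SP φ)) (y0 : C.M 0), C.Ex ∧ (∀ x, aug (β x) = 0 ↔ ∃ y, C.d 0 y = x) ∧
    aug (β y0) = 1 ∧ (∀ n, len0 D Y + 1 < n → ∀ x : C.M n, x = 0) ∧
    ∀ (θ : RP (SP φ) →+ ℂ) n, Tt θ (p n) LinearMap.id =
      (∑ u : ↥D.F, ∑ m ∈ Finset.range (len0 D Y + 1), if m + 1 = n then ((D.Z u).n m : ℂ) * θ (pv φ (u : V)) else 0) +
        Y.n n * θ 1 := by
  classical
  obtain ⟨x0, hx0⟩ := Y.surj
  obtain ⟨y0, hy0⟩ : ∃ y0 : Fin (Y.n 0) → RP (SP φ), y0 = fun j => ip φ (x0 j) := ⟨_, rfl⟩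
  have hby0 : bY φ Y y0 = ip φ (∑ j, x0 j * (Y.aug j : MonoidAlgebra ℤ π)) := by
    rw [hy0, bY_ip]
  have hau0 : augm π (∑ j, x0 j * (Y.aug j : MonoidAlgebra ℤ π)) = 1 := by
    rw [augm_sum, hx0]
  have haug0 : aug (bY φ Y y0) = 1 := by
    rw [hby0, aug_ip, hau0, Int.cast_one]
  -- the submodule of the elements which annihilate the base point modulo boundaries
  obtain ⟨J', hJ'⟩ : ∃ J' : Submodule (RP (SP φ)) (RP (SP φ)), ∀ c, c ∈ J' ↔
      ∃ y : Fin (Y.n 1) → RP (SP φ), Matrix.vecMul y ((Y.d 0).map (ip φ)) = c • y0 :=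
    ⟨(LinearMap.range ((Yc φ Y).d 0)).comap
      (LinearMap.toSpanSingleton (RP (SP φ)) (Fin (Y.n 0) → RP (SP φ)) y0), fun c => Iff.rfl⟩
  have hgi : ∀ h : π, gi φ h - 1 ∈ J' := by
    intro h
    obtain ⟨y, hy⟩ := Yrow' (φ := φ) Y (fun j => MonoidAlgebra.single h 1 * x0 j - x0 j) (by
      refine Finset.sum_eq_zero fun j _ => ?_
      have e1 : augm π (MonoidAlgebra.single h 1) = 1 := by
        show MonoidAlgebra.lift ℤ ℤ π 1 (MonoidAlgebra.single h 1) = 1
        rw [MonoidAlgebra.lift_single]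
        simp
      rw [map_sub, map_mul, e1, one_mul, sub_self, zero_mul])
    refine (hJ' _).2 ⟨y, hy.trans ?_⟩
    funext j
    show ip φ (MonoidAlgebra.single h 1 * x0 j - x0 j) = (gi φ h - 1) * y0 j
    rw [map_sub, map_mul, ip_single, Int.cast_one, one_smul, hy0, sub_mul, one_mul]
  have hka : ∀ c : RP (SP φ), ka φ c = 0 → c ∈ J' := by
    have key : ∀ c : RP (SP φ), c - iW φ (ka φ c) ∈ J' := by
      intro c
      induction c using MonoidAlgebra.induction_linear with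
      | zero =>
        rw [map_zero, map_zero, sub_zero]
        exact zero_mem _
      | add x y hx hy =>
        have : x + y - iW φ (ka φ (x + y)) = (x - iW φ (ka φ x)) + (y - iW φ (ka φ y)) := by
          rw [map_add, map_add]
          abel
        rw [this]
        exact add_mem hx hy
      | single p r =>
        have : (MonoidAlgebra.single p r : RP (SP φ)) - iW φ (ka φ (MonoidAlgebra.single p r)) =
            (MonoidAlgebra.single (SemidirectProduct.inl p.left : SP φ) r : RP (SP φ)) • (gi φ p.right - 1) := by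
          rw [ka_single, iW_single, smul_eq_mul, mul_sub, mul_one, MonoidAlgebra.single_mul_single, mul_one,
            SemidirectProduct.inl_left_mul_inr_right]
        rw [this]
        exact J'.smul_mem _ (hgi _)
    intro c hc
    have := key c
    rwa [hc, map_zero, sub_zero] at this
  obtain ⟨dl, Yd, lam, hdl, hYdd, hYex, hYd, hl0, hlam⟩ := cdata hφ D Y y0 fun c hc => (hJ' c).1 (hka c hc)
  -- the complex
  obtain ⟨C, hCM, hCd⟩ : ∃ C : ∀ n, (Dz φ D (n + 1) × (Fin (Y.n (n + 1)) → RP (SP φ))) →ₗ[RP (SP φ)]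
      (Dz φ D n × (Fin (Y.n n) → RP (SP φ))),
      (∀ n x, (C n x).1 = -dl n x.1) ∧ ∀ n x, (C n x).2 = Yd n x.2 + lam n x.1 :=
    ⟨fun n => LinearMap.prod (-(dl n ∘ₗ LinearMap.fst _ _ _))
      (Yd n ∘ₗ LinearMap.snd _ _ _ + lam n ∘ₗ LinearMap.fst _ _ _), fun n x => rfl, fun n x => rfl⟩
  have hdd : ∀ n x, C n (C (n + 1) x) = 0 := by
    intro n x
    refine Prod.ext ?_ ?_
    · rw [hCM, hCM, map_neg, neg_neg]
      refine Subtype.ext ?_
      rw [hdl, hdl, dz_dz x.1.1]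
      rfl
    · rw [hCd, hCd, hCM, map_add, map_neg, hYdd, hlam, zero_add, add_neg_cancel]
      rfl
  have hK1 : ∀ y : Dz φ D 0, y = 0 := by
    intro y
    refine Subtype.ext (funext fun i => ?_)
    exact (y.2 i).2 (Nat.succ_ne_zero _)
  have haD : ∀ a : Dz φ D 1, aug (sZ φ D a.1) = 0 := fun a => aug_sZ a.2
  -- all group elements
  obtain ⟨J, hJ⟩ : ∃ J : Submodule (RP (SP φ)) (RP (SP φ)), ∀ c, c ∈ J ↔
      ∃ x : Dz φ D 1 × (Fin (Y.n 1) → RP (SP φ)), (C 0 x).2 = c • y0 :=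
    ⟨(LinearMap.range (LinearMap.snd _ _ _ ∘ₗ C 0)).comap
      (LinearMap.toSpanSingleton (RP (SP φ)) (Fin (Y.n 0) → RP (SP φ)) y0), fun c => Iff.rfl⟩
  have hJJ : ∀ c ∈ J', c ∈ J := by
    intro c hc
    obtain ⟨y, hy⟩ := (hJ' c).1 hc
    refine (hJ c).2 ⟨(0, y), ?_⟩
    rw [hCd]
    show Yd 0 y + lam 0 0 = c • y0
    rw [hYd, hy, map_zero, add_zero]
  have hsZ : ∀ a : Dz φ D 1, sZ φ D a.1 ∈ J := by
    intro a
    refine (hJ _).2 ⟨(a, 0), ?_⟩
    rw [hCd]
    show Yd 0 0 + lam 0 a = sZ φ D a.1 • y0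
    rw [map_zero, zero_add, hl0]
  have hpu : ∀ u : ↥D.F, pv φ (u : V) ∈ J := by
    intro u
    choose xs hxs using fun u : ↥D.F => (D.Z u).surj
    obtain ⟨zz, hzz⟩ : ∃ zz : ∀ u' : ↥D.F, Fin ((D.Z u').n 0) → RP (SP φ), ∀ u' j, zz u' j = if u' = u then
        jq (fh φ (u' : V)) (xs u' j) * pv φ (u' : V) else 0 := ⟨_, fun _ _ => rfl⟩
    obtain ⟨a, ha⟩ : ∃ a : Dz φ D 1, a.1 = put 0 zz := by
      refine ⟨⟨put 0 zz, put_mem D 0 zz fun u' j => ?_⟩, rfl⟩
      rw [hzz]
      split_ifs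
      · rw [mul_assoc, pv_idem]
      · rw [zero_mul]
    have h1 : sZ φ D a.1 = pv φ (u : V) * jq (fh φ (u : V)) (∑ j, xs u j *
        ((D.Z u).aug j : MonoidAlgebra ℤ (MulAction.stabilizer π (u : V)))) := by
      show ∑ u' : ↥D.F, ∑ j : Fin ((D.Z u').n 0), a.1 ⟨u', 0, j⟩ * ((D.Z u').aug j : RP (SP φ)) = _
      rw [ha, Finset.sum_eq_single u]
      · rw [map_sum, Finset.mul_sum]
        refine Finset.sum_congr rfl fun j _ => ?_
        rw [put_same, hzz, if_pos rfl, pv_jq hφ, map_mul, map_intCast, mul_assoc]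
      · intro u' _ hu'
        refine Finset.sum_eq_zero fun j _ => ?_
        rw [put_same, hzz, if_neg hu', zero_mul]
      · intro h
        exact absurd (Finset.mem_univ u) h
    have h2 : sZ φ D a.1 - pv φ (u : V) ∈ J := by
      refine hJJ _ (hka _ ?_)
      rw [map_sub, h1, ka_jq, augm_sum, hxs, Int.cast_one, one_smul, sub_self]
    have h3 := sub_mem (hsZ a) h2
    rwa [sub_sub_cancel] at h3
  have hps : ∀ v : V, iW φ (ps G v) ∈ J := by
    intro v
    obtain ⟨g, u, hu, hgu⟩ := D.cov v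
    have h5 : iW φ (ps G v) = gi φ g • pv φ u - iW φ (ps G v) • (gi φ g - 1) := by
      rw [smul_eq_mul, smul_eq_mul, gi_pv hφ, hgu, mul_sub, mul_one]
      show iW φ (ps G v) = iW φ (ps G v) * gi φ g - (iW φ (ps G v) * gi φ g - iW φ (ps G v))
      abel
    rw [h5]
    exact sub_mem (J.smul_mem _ (hpu ⟨u, hu⟩)) (J.smul_mem _ (hJJ _ (hgi g)))
  have hinl : ∀ w : W G, gp (SemidirectProduct.inl w : SP φ) - 1 ∈ J := by
    intro w
    refine w_ind G (p := fun w => gp (SemidirectProduct.inl w : SP φ) - 1 ∈ J) w ?_ ?_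
    · rw [map_one, gp_one, sub_self]
      exact zero_mem _
    · intro w v ih
      have h1 : gp (SemidirectProduct.inl (sm G v * w) : SP φ) - 1 =
          gp (SemidirectProduct.inl (sm G v) : SP φ) • (gp (SemidirectProduct.inl w : SP φ) - 1) +
            (-(2 : ℚ)) • iW φ (ps G v) := by
        unfold ps qs
        rw [smul_eq_mul, mul_sub, gp_mul, mul_one, map_mul, iW_smul, smul_smul, map_sub, map_one, iW_single]
        norm_num
      rw [h1]
      exact add_mem (J.smul_mem _ ih) (smul_mem_J J _ (hps v))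
  have hall : ∀ q : SP φ, gp q - 1 ∈ J := by
    intro q
    have h1 : gp q - 1 = gp (SemidirectProduct.inl q.left : SP φ) • (gi φ q.right - 1) +
        (gp (SemidirectProduct.inl q.left : SP φ) - 1) := by
      rw [smul_eq_mul, mul_sub, gp_mul, mul_one, SemidirectProduct.inl_left_mul_inr_right]
      abel
    rw [h1]
    exact add_mem (J.smul_mem _ (hJJ _ (hgi _))) (hinl _)
  -- the statement
  refine ⟨{ M := fun n => Dz φ D n × (Fin (Y.n n) → RP (SP φ)), d := C, dd := hdd },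
    fun n => fpProd (fpZ φ D _ (len0_u D Y) n) (Y.n n),
    bY φ Y ∘ₗ LinearMap.snd _ _ _, (0, y0), ?_, ?_, haug0, ?_, ?_⟩
  · intro n x hx
    have hx1 : -dl n x.1 = 0 := (hCM n x).symm.trans (congrArg Prod.fst hx)
    have hx2 : Yd n x.2 + lam n x.1 = 0 := (hCd n x).symm.trans (congrArg Prod.snd hx)
    have hx1' : dz x.1.1 = 0 := by
      rw [← hdl, neg_eq_zero.1 hx1]
      rfl
    have key : ∃ z : Dz φ D (n + 2), dl (n + 1) z = x.1 := by
      rcases n with _ | n
      · obtain ⟨z, hz, h⟩ := Dz_ex1 hφ hG x.1.2 (by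
          have h1 := congrArg (fun y : Fin (Y.n 0) → RP (SP φ) => ka φ (bY φ Y y)) hx2
          have h2 : ka φ (bY φ Y (Yd 0 x.2 + lam 0 x.1)) = ka φ (sZ φ D x.1.1) := by
            rw [hl0, hYd, map_add, map_add, map_smul, (bY_d_aug Y x.2).2, zero_add, hby0, smul_eq_mul, ka_mul_ip, hau0,
              Int.cast_one, one_smul]
          have h3 : ka φ (bY φ Y (0 : Fin (Y.n 0) → RP (SP φ))) = 0 := by rw [map_zero, map_zero]
          exact h2.symm.trans (h1.trans h3))
        exact ⟨⟨z, hz⟩, Subtype.ext ((hdl _ _).trans h)⟩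
      · obtain ⟨z, hz, h⟩ := Dz_ex hφ x.1.2 hx1'
        exact ⟨⟨z, hz⟩, Subtype.ext ((hdl _ _).trans h)⟩
    obtain ⟨z, hz⟩ := key
    obtain ⟨b, hb⟩ := hYex n (x.2 + lam (n + 1) z) (by rw [map_add, hlam, hz, hx2])
    refine ⟨(-z, b), Prod.ext ?_ ?_⟩
    · rw [hCM]
      show -dl (n + 1) (-z) = x.1
      rw [map_neg, neg_neg, hz]
    · rw [hCd]
      show Yd (n + 1) b + lam (n + 1) (-z) = x.2
      rw [hb, map_neg, add_neg_cancel_right]
  · intro x
    constructor
    · intro hx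
      -- reduce to multiples of the base point
      have h1 : bY φ Y x.2 ∈ J := mem_of_aug hall hx
      obtain ⟨u, hu⟩ := (hJ _).1 h1
      have h2 : ∃ y, Yd 0 y = x.2 - bY φ Y x.2 • y0 := by
        have h3 : ∀ j : Fin (Y.n 0), ∃ y, Yd 0 y =
            (Pi.single j 1 - (Y.aug j : RP (SP φ)) • y0 : Fin (Y.n 0) → RP (SP φ)) := by
          intro j
          obtain ⟨y, hy⟩ := Yrow' (φ := φ) Y (fun k => (Pi.single j 1 : Fin (Y.n 0) → MonoidAlgebra ℤ π) k -
              (Y.aug j : MonoidAlgebra ℤ π) * x0 k) (by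
            have e1 : ∀ k, augm π ((Pi.single j 1 : Fin (Y.n 0) → MonoidAlgebra ℤ π) k -
                (Y.aug j : MonoidAlgebra ℤ π) * x0 k) * Y.aug k =
                (if k = j then Y.aug j else 0) - Y.aug j * (augm π (x0 k) * Y.aug k) := by
              intro k
              rw [map_sub, map_mul, map_intCast, sub_mul, Int.cast_id, mul_assoc]
              congr 1
              by_cases hk : k = j
              · subst hk
                rw [Pi.single_eq_same, map_one, one_mul, if_pos rfl]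
              · rw [Pi.single_eq_of_ne hk, map_zero, zero_mul, if_neg hk]
            rw [Finset.sum_congr rfl fun k _ => e1 k, Finset.sum_sub_distrib, ← Finset.mul_sum, hx0,
              Finset.sum_ite_eq', if_pos (Finset.mem_univ _), mul_one, sub_self])
          refine ⟨y, (hYd y).trans (hy.trans ?_)⟩
          funext k
          show ip φ ((Pi.single j 1 : Fin (Y.n 0) → MonoidAlgebra ℤ π) k - (Y.aug j : MonoidAlgebra ℤ π) * x0 k) =
            (Pi.single j 1 : Fin (Y.n 0) → RP (SP φ)) k - (Y.aug j : RP (SP φ)) * y0 k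
          rw [map_sub, map_mul, map_intCast, hy0]
          congr 1
          by_cases hk : k = j
          · subst hk
            rw [Pi.single_eq_same, Pi.single_eq_same, map_one]
          · rw [Pi.single_eq_of_ne hk, Pi.single_eq_of_ne hk, map_zero]
        choose y hy using h3
        refine ⟨∑ j, x.2 j • y j, ?_⟩
        rw [map_sum]
        have h4 : ∀ j, Yd 0 (x.2 j • y j) =
            (x.2 j • (Pi.single j 1 - (Y.aug j : RP (SP φ)) • y0) : Fin (Y.n 0) → RP (SP φ)) := by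
          intro j
          rw [map_smul, hy]
        rw [Finset.sum_congr rfl fun j _ => h4 j]
        funext k
        rw [Finset.sum_apply, Pi.sub_apply]
        show ∑ j, x.2 j * ((Pi.single j 1 : Fin (Y.n 0) → RP (SP φ)) k - (Y.aug j : RP (SP φ)) * y0 k) =
          x.2 k - (∑ j, x.2 j * (Y.aug j : RP (SP φ))) * y0 k
        simp only [mul_sub, Finset.sum_sub_distrib, Finset.sum_mul, mul_assoc]
        congr 1
        rw [Finset.sum_eq_single k]
        · rw [Pi.single_eq_same, mul_one]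
        · intro j _ hj
          rw [Pi.single_eq_of_ne (Ne.symm hj), mul_zero]
        · intro h
          exact absurd (Finset.mem_univ k) h
      obtain ⟨y, hy⟩ := h2
      refine ⟨u + (0, y), Prod.ext ?_ ?_⟩
      · exact (hK1 _).trans (hK1 _).symm
      · show (C 0 (u + (0, y))).2 = x.2
        rw [map_add]
        show (C 0 u).2 + (C 0 (0, y)).2 = x.2
        rw [hu, hCd]
        show bY φ Y x.2 • y0 + (Yd 0 y + lam 0 0) = x.2
        rw [map_zero, hy, add_zero, add_sub_cancel]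
    · rintro ⟨y, rfl⟩
      show aug (bY φ Y (C 0 y).2) = 0
      rw [hCd, hl0, hYd, map_add, map_add, map_smul, (bY_d_aug Y y.2).1, smul_eq_mul, map_mul, haD, zero_mul,
        add_zero]
  · intro n hn x
    refine Prod.ext (Subtype.ext (funext fun i => ?_)) (funext fun j => ?_)
    · by_cases h1 : i.2.1 + 1 = n
      · have h3 : (D.Z i.1).n i.2.1 = 0 := (D.Z i.1).n_eq_zero _ (lt_of_le_of_lt (len0_u D Y _) (by omega))
        have h4 := i.2.2.2
        omega
      · exact (x.1.2 i).2 h1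
    · have h2 : Y.len ≤ len0 D Y := Nat.le_add_right _ _
      have h1 : Y.n n = 0 := Y.n_eq_zero n (by omega)
      have := j.2
      omega
  · intro θ n
    exact (fpProd_rank (fpZ φ D _ (len0_u D Y) n) (Y.n n) θ).trans
      (congrArg (· + (Y.n n : ℂ) * θ 1) (fpZ_rank φ D _ (len0_u D Y) n θ))

end Pool.Agent.X250.RF
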