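import Pool.Agent.X250.RF.Kv

/-!
# The resolution of the chains in degree one of the tree
-/

set_option autoImplicit false
set_option linter.unusedSectionVars false

open scoped Matrix

namespace Pool.Agent.X250.RF

open Pool.Agent.W907.SG Pool.Agent.W461.SGN
open Pool.Agent.X250.ZS (Cx ext0 ext0_single sm sm_sm sm_inv sm_inj ps qs cp cp_empty cp_insert cp_neg ps_comm ps_idem
  RW gs)
open Pool.Agent.X250.RT
open Pool.Agent.H919R4.ZS (FinRes augm)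

variable {V : Type} {G : SimpleGraph V} {π : Type} [Group π] [MulAction π V] {φ : π →* MulAut (W G)}

/-- the projection of a generator -/
noncomputable def pv (φ : π →* MulAut (W G)) (u : V) : RP (SP φ) := iW φ (ps G u)

theorem pv_idem (u : V) : pv φ u * pv φ u = pv φ u := by
  classical
  unfold pv
  rw [← map_mul, ps_idem]

theorem pv_aug (u : V) : aug (pv φ u) = 0 := by
  classical
  unfold pv ps qs
  rw [iW_smul, aug_smul, map_sub, map_one, map_sub, map_one, iW_single, aug_single, sub_self, mul_zero]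

theorem gi_pv (hφ : Com φ) (g : π) (u : V) : gi φ g * pv φ u = pv φ (g • u) * gi φ g := by
  classical
  unfold pv
  rw [gi_iW, fa_ps (hφ := hφ)]

theorem pv_jq (hφ : Com φ) (u : V) (e : MonoidAlgebra ℤ (MulAction.stabilizer π u)) :
    jq (fh φ u) e * pv φ u = pv φ u * jq (fh φ u) e := by
  induction e using MonoidAlgebra.induction_linear with
  | zero => rw [map_zero, mul_zero, zero_mul]
  | add x y hx hy => rw [map_add, mul_add, add_mul, hx, hy]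
  | single g m =>
    rw [jq_single, mul_smul_comm, smul_mul_assoc]
    congr 1
    have h1 : gp (fh φ u g) * pv φ u = pv φ ((g : π) • u) * gp (fh φ u g) := gi_pv hφ (g : π) u
    rw [h1, MulAction.mem_stabilizer_iff.1 g.2]

variable (D : Dat π V)

/-- the index set -/
abbrev Ix : Type := Σ u : ↥D.F, Σ m : ℕ, Fin ((D.Z u).n m)

variable {D}

/-- the chains -/
noncomputable def Dz (φ : π →* MulAut (W G)) (D : Dat π V) (n : ℕ) : Submodule (RP (SP φ)) (Ix D → RP (SP φ)) where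
  carrier := {y | ∀ i : Ix D, y i * pv φ (i.1 : V) = y i ∧ (i.2.1 + 1 ≠ n → y i = 0)}
  add_mem' := by
    intro x y hx hy i
    refine ⟨?_, fun h => ?_⟩
    · show (x i + y i) * pv φ (i.1 : V) = x i + y i
      rw [add_mul, (hx i).1, (hy i).1]
    · show x i + y i = 0
      rw [(hx i).2 h, (hy i).2 h, add_zero]
  zero_mem' := fun i => ⟨zero_mul _, fun _ => rfl⟩
  smul_mem' := by
    intro c x hx i
    refine ⟨?_, fun h => ?_⟩
    · show c * x i * pv φ (i.1 : V) = c * x i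
      rw [mul_assoc, (hx i).1]
    · show c * x i = 0
      rw [(hx i).2 h, mul_zero]

/-- the differential -/
noncomputable def dz : (Ix D → RP (SP φ)) →ₗ[RP (SP φ)] (Ix D → RP (SP φ)) where
  toFun y i := ∑ j : Fin ((D.Z i.1).n (i.2.1 + 1)), y ⟨i.1, i.2.1 + 1, j⟩ *
    jq (fh φ (i.1 : V)) ((D.Z i.1).d i.2.1 j i.2.2)
  map_add' x y := by
    funext i
    show ∑ j, (x _ + y _) * _ = ∑ j, _ + ∑ j, _
    rw [← Finset.sum_add_distrib]
    exact Finset.sum_congr rfl fun j _ => add_mul _ _ _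
  map_smul' c x := by
    funext i
    show ∑ j, (c * x _) * _ = c * ∑ j, _
    rw [Finset.mul_sum]
    exact Finset.sum_congr rfl fun j _ => mul_assoc _ _ _

theorem dz_apply (y : Ix D → RP (SP φ)) (u : ↥D.F) (m : ℕ) (k : Fin ((D.Z u).n m)) :
    dz y ⟨u, m, k⟩ = ((fun j => y ⟨u, m + 1, j⟩) ᵥ* ((D.Z u).d m).map (jq (fh φ (u : V)))) k := rfl

theorem dz_mem (hφ : Com φ) {n : ℕ} {y : Ix D → RP (SP φ)} (hy : y ∈ Dz φ D (n + 1)) : dz y ∈ Dz φ D n := by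
  rintro ⟨u, m, k⟩
  refine ⟨?_, fun h => ?_⟩
  · show (∑ j : Fin ((D.Z u).n (m + 1)), y ⟨u, m + 1, j⟩ * jq (fh φ (u : V)) ((D.Z u).d m j k)) * pv φ (u : V) =
      ∑ j : Fin ((D.Z u).n (m + 1)), y ⟨u, m + 1, j⟩ * jq (fh φ (u : V)) ((D.Z u).d m j k)
    rw [Finset.sum_mul]
    refine Finset.sum_congr rfl fun j _ => ?_
    rw [mul_assoc, pv_jq hφ, ← mul_assoc, (hy ⟨u, m + 1, j⟩).1]
  · show ∑ j : Fin ((D.Z u).n (m + 1)), y ⟨u, m + 1, j⟩ * jq (fh φ (u : V)) ((D.Z u).d m j k) = 0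
    refine Finset.sum_eq_zero fun j _ => ?_
    have h1 : y ⟨u, m + 1, j⟩ = 0 := (hy ⟨u, m + 1, j⟩).2 (by
      show m + 1 + 1 ≠ n + 1
      have h2 : m + 1 ≠ n := h
      omega)
    rw [h1, zero_mul]

theorem dz_dz (y : Ix D → RP (SP φ)) : dz (dz y) = 0 := by
  funext ⟨u, m, k⟩
  rw [dz_apply]
  have h1 : (fun j => dz y ⟨u, m + 1, j⟩) = (fun j => y ⟨u, m + 1 + 1, j⟩) ᵥ* ((D.Z u).d (m + 1)).map (jq (fh φ (u : V))) :=
    rfl
  rw [h1, Matrix.vecMul_vecMul, ← Matrix.map_mul, Pool.Agent.H919R4.ZS.d_mul_d]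
  have : (0 : Matrix (Fin ((D.Z u).n (m + 1 + 1))) (Fin ((D.Z u).n m)) (MonoidAlgebra ℤ _)).map (jq (fh φ (u : V))) = 0 := by
    ext1 a b
    exact map_zero (jq _)
  rw [this, Matrix.vecMul_zero]
  rfl

/-- an element concentrated in one degree -/
noncomputable def put (m : ℕ) (z : ∀ u : ↥D.F, Fin ((D.Z u).n m) → RP (SP φ)) : Ix D → RP (SP φ) :=
  fun i => if h : i.2.1 = m then z i.1 (h ▸ i.2.2) else 0

theorem put_same (m : ℕ) (z : ∀ u : ↥D.F, Fin ((D.Z u).n m) → RP (SP φ)) (u : ↥D.F) (j : Fin ((D.Z u).n m)) :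
    put m z ⟨u, m, j⟩ = z u j := by
  unfold put
  rw [dif_pos rfl]

theorem put_ne (m : ℕ) (z : ∀ u : ↥D.F, Fin ((D.Z u).n m) → RP (SP φ)) {i : Ix D} (h : i.2.1 ≠ m) : put m z i = 0 := by
  unfold put
  rw [dif_neg h]

/-- fillings -/
theorem fill (hφ : Com φ) (m : ℕ) {y : Ix D → RP (SP φ)} (hy : y ∈ Dz φ D (m + 1))
    (h : ∀ u : ↥D.F, ∃ z, z ᵥ* ((D.Z u).d m).map (jq (fh φ (u : V))) = fun j => y ⟨u, m, j⟩) :
    ∃ z ∈ Dz φ D (m + 2), dz z = y := by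
  choose z hz using h
  refine ⟨put (m + 1) (fun u j => z u j * pv φ (u : V)), ?_, ?_⟩
  · rintro ⟨u, m', j⟩
    by_cases hm : m' = m + 1
    · subst hm
      rw [put_same]
      refine ⟨?_, fun h => absurd rfl h⟩
      rw [mul_assoc, pv_idem]
    · rw [put_ne _ _ hm]
      exact ⟨zero_mul _, fun _ => rfl⟩
  · funext ⟨u, m', k⟩
    by_cases hm : m' = m
    · subst hm
      have h1 : dz (put (m' + 1) fun u j => z u j * pv φ (u : V)) ⟨u, m', k⟩ =
          ∑ j, (z u j * jq (fh φ (u : V)) ((D.Z u).d m' j k)) * pv φ (u : V) := by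
        show ∑ j : Fin ((D.Z u).n (m' + 1)), put (m' + 1) (fun u j => z u j * pv φ (u : V)) ⟨u, m' + 1, j⟩ *
          jq (fh φ (u : V)) ((D.Z u).d m' j k) = _
        refine Finset.sum_congr rfl fun j _ => ?_
        rw [put_same, mul_assoc, mul_assoc, pv_jq hφ]
      rw [h1, ← Finset.sum_mul]
      have h2 := congrFun (hz u) k
      have h3 : ∑ j, z u j * jq (fh φ (u : V)) ((D.Z u).d m' j k) = y ⟨u, m', k⟩ := h2
      rw [h3]
      exact (hy ⟨u, m', k⟩).1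
    · have h1 : y ⟨u, m', k⟩ = 0 := (hy ⟨u, m', k⟩).2 (by
        show m' + 1 ≠ m + 1
        omega)
      rw [h1]
      show ∑ j : Fin ((D.Z u).n (m' + 1)), put (m + 1) (fun u j => z u j * pv φ (u : V)) ⟨u, m' + 1, j⟩ *
        jq (fh φ (u : V)) ((D.Z u).d m' j k) = 0
      refine Finset.sum_eq_zero fun j _ => ?_
      rw [put_ne, zero_mul]
      show m' + 1 ≠ m + 1
      omega

theorem Dz_ex (hφ : Com φ) {n : ℕ} {y : Ix D → RP (SP φ)} (hy : y ∈ Dz φ D (n + 2)) (hd : dz y = 0) :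
    ∃ z ∈ Dz φ D (n + 3), dz z = y := by
  refine fill hφ (n + 1) hy fun u => ?_
  refine jq_exact (fh φ (u : V)) (fh_inj _) (D.Z u) n _ ?_
  funext k
  exact congrFun hd ⟨u, n, k⟩

/-- the augmentation -/
noncomputable def sZ (φ : π →* MulAut (W G)) (D : Dat π V) : (Ix D → RP (SP φ)) →ₗ[RP (SP φ)] RP (SP φ) where
  toFun y := ∑ u : ↥D.F, ∑ j : Fin ((D.Z u).n 0), y ⟨u, 0, j⟩ * ((D.Z u).aug j : RP (SP φ))
  map_add' x y := by
    rw [← Finset.sum_add_distrib]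
    refine Finset.sum_congr rfl fun u _ => ?_
    rw [← Finset.sum_add_distrib]
    exact Finset.sum_congr rfl fun j _ => add_mul _ _ _
  map_smul' c x := by
    rw [RingHom.id_apply, smul_eq_mul, Finset.mul_sum]
    refine Finset.sum_congr rfl fun u _ => ?_
    rw [Finset.mul_sum]
    exact Finset.sum_congr rfl fun j _ => mul_assoc _ _ _

theorem Dz_ex1 (hφ : Com φ) (hG : ∀ a b, ¬ G.Adj a b) {y : Ix D → RP (SP φ)} (hy : y ∈ Dz φ D 1)
    (hk : ka φ (sZ φ D y) = 0) : ∃ z ∈ Dz φ D 2, dz z = y := by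
  classical
  refine fill hφ 0 hy fun u => ?_
  obtain ⟨b, hb⟩ : ∃ b : ↥D.F → RP (SP φ), ∀ u, b u = ∑ j : Fin ((D.Z u).n 0), y ⟨u, 0, j⟩ *
    ((D.Z u).aug j : RP (SP φ)) := ⟨_, fun u => rfl⟩
  have h1 := tree_inj hφ hG D b (fun u => by
    rw [hb, Finset.sum_mul]
    refine Finset.sum_congr rfl fun j _ => ?_
    have h2 := (hy ⟨u, 0, j⟩).1
    have h3 : ((D.Z u).aug j : RP (SP φ)) * iW φ (ps G (u : V)) = iW φ (ps G (u : V)) * ((D.Z u).aug j : RP (SP φ)) :=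
      (Int.cast_commute _ _).eq
    rw [mul_assoc, h3, ← mul_assoc]
    congr 1) (by
    rw [← hk]
    congr 1
    exact Finset.sum_congr rfl fun u _ => hb u)
  refine jq_exact0 (fh φ (u : V)) (fh_inj _) (D.Z u) _ fun w b' r hb' => ?_
  have h2 := kv_lam (u : V) w b'
  rw [hb', ← hb, kv_smul, h1, smul_zero] at h2
  have h3 : (MonoidAlgebra.coeff (0 : RW G)) w.left = 0 := rfl
  rw [h3] at h2
  exact_mod_cast h2.symm

theorem ka_jq (u : V) (a : RP (SP φ)) (e : MonoidAlgebra ℤ (MulAction.stabilizer π u)) :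
    ka φ (a * jq (fh φ u) e) = ((augm _ e : ℤ) : ℚ) • ka φ a := by
  induction e using MonoidAlgebra.induction_linear with
  | zero => rw [map_zero, mul_zero, map_zero, map_zero, Int.cast_zero, zero_smul]
  | add x y hx hy => rw [map_add, mul_add, map_add, map_add, Int.cast_add, add_smul, hx, hy]
  | single g m =>
    rw [jq_single, mul_smul_comm, ka_smul]
    have h1 : ka φ (a * gp (fh φ u g)) = ka φ a := ka_mul_gi a (g : π)
    rw [h1]
    congr 2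
    show _ = MonoidAlgebra.lift ℤ ℤ _ 1 (MonoidAlgebra.single g m)
    rw [MonoidAlgebra.lift_single]
    simp

theorem ka_dz (y : Ix D → RP (SP φ)) : ka φ (sZ φ D (dz y)) = 0 := by
  show ka φ (∑ u : ↥D.F, ∑ j : Fin ((D.Z u).n 0), dz y ⟨u, 0, j⟩ * ((D.Z u).aug j : RP (SP φ))) = 0
  rw [map_sum]
  refine Finset.sum_eq_zero fun u _ => ?_
  have h1 : ∑ j : Fin ((D.Z u).n 0), dz y ⟨u, 0, j⟩ * ((D.Z u).aug j : RP (SP φ)) =
      ∑ l : Fin ((D.Z u).n 1), y ⟨u, 1, l⟩ * jq (fh φ (u : V)) (∑ j, (D.Z u).d 0 l j *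
        ((D.Z u).aug j : MonoidAlgebra ℤ _)) := by
    have h2 : ∀ j : Fin ((D.Z u).n 0), dz y ⟨u, 0, j⟩ * ((D.Z u).aug j : RP (SP φ)) =
        ∑ l : Fin ((D.Z u).n 1), y ⟨u, 1, l⟩ * (jq (fh φ (u : V)) ((D.Z u).d 0 l j) *
          ((D.Z u).aug j : RP (SP φ))) := by
      intro j
      show (∑ l : Fin ((D.Z u).n 1), y ⟨u, 1, l⟩ * jq (fh φ (u : V)) ((D.Z u).d 0 l j)) * _ = _
      rw [Finset.sum_mul]
      exact Finset.sum_congr rfl fun l _ => mul_assoc _ _ _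
    rw [Finset.sum_congr rfl fun j _ => h2 j, Finset.sum_comm]
    refine Finset.sum_congr rfl fun l _ => ?_
    rw [map_sum, Finset.mul_sum]
    refine Finset.sum_congr rfl fun j _ => ?_
    rw [map_mul, map_intCast]
  rw [h1, map_sum]
  refine Finset.sum_eq_zero fun l _ => ?_
  have h3 : augm _ (∑ j, (D.Z u).d 0 l j * ((D.Z u).aug j : MonoidAlgebra ℤ (MulAction.stabilizer π (u : V)))) = 0 := by
    rw [augm_sum]
    refine ((D.Z u).exact_zero ((D.Z u).d 0 l)).2 ⟨Pi.single l 1, ?_⟩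
    funext j
    simp [Matrix.vecMul, dotProduct, Pi.single_apply]
  rw [ka_jq, h3, Int.cast_zero, zero_smul]

theorem aug_sZ {n : ℕ} {y : Ix D → RP (SP φ)} (hy : y ∈ Dz φ D n) : aug (sZ φ D y) = 0 := by
  show aug (∑ u : ↥D.F, ∑ j : Fin ((D.Z u).n 0), y ⟨u, 0, j⟩ * ((D.Z u).aug j : RP (SP φ))) = 0
  rw [map_sum]
  refine Finset.sum_eq_zero fun u _ => ?_
  rw [map_sum]
  refine Finset.sum_eq_zero fun j _ => ?_
  rw [map_mul, ← (hy ⟨u, 0, j⟩).1, map_mul, pv_aug, mul_zero, zero_mul]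

/-- the presentation of the chains -/
noncomputable def fpZ (φ : π →* MulAut (W G)) (D : Dat π V) (N : ℕ) (hN : ∀ u, (D.Z u).len ≤ N) (n : ℕ) :
    FP (RP (SP φ)) (Dz φ D n) where
  k := Σ u : ↥D.F, Σ m : Fin (N + 1), Fin ((D.Z u).n (m : ℕ))
  dk := Classical.decEq _
  i := LinearMap.pi (fun i : (Σ u : ↥D.F, Σ m : Fin (N + 1), Fin ((D.Z u).n (m : ℕ))) =>
    LinearMap.proj (⟨i.1, (i.2.1 : ℕ), i.2.2⟩ : Ix D)) ∘ₗ (Dz φ D n).subtype
  r :=
    { toFun := fun z => ⟨fun i => if h : i.2.1 < N + 1 ∧ i.2.1 + 1 = n then z ⟨i.1, ⟨i.2.1, h.1⟩, i.2.2⟩ *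
          pv φ (i.1 : V) else 0, fun i => by
        refine ⟨?_, fun h => dif_neg fun h' => h h'.2⟩
        show (if h : i.2.1 < N + 1 ∧ i.2.1 + 1 = n then z ⟨i.1, ⟨i.2.1, h.1⟩, i.2.2⟩ * pv φ (i.1 : V) else 0) *
            pv φ (i.1 : V) =
          if h : i.2.1 < N + 1 ∧ i.2.1 + 1 = n then z ⟨i.1, ⟨i.2.1, h.1⟩, i.2.2⟩ * pv φ (i.1 : V) else 0
        split_ifs
        · rw [mul_assoc, pv_idem]
        · rw [zero_mul]⟩
      map_add' := fun z z' => Subtype.ext (funext fun i => by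
        show (if h : i.2.1 < N + 1 ∧ i.2.1 + 1 = n then (z ⟨i.1, ⟨i.2.1, h.1⟩, i.2.2⟩ +
            z' ⟨i.1, ⟨i.2.1, h.1⟩, i.2.2⟩) * pv φ (i.1 : V) else 0) =
          (if h : i.2.1 < N + 1 ∧ i.2.1 + 1 = n then z ⟨i.1, ⟨i.2.1, h.1⟩, i.2.2⟩ * pv φ (i.1 : V) else 0) +
            if h : i.2.1 < N + 1 ∧ i.2.1 + 1 = n then z' ⟨i.1, ⟨i.2.1, h.1⟩, i.2.2⟩ * pv φ (i.1 : V) else 0
        split_ifs
        · rw [add_mul]
        · rw [add_zero])
      map_smul' := fun a z => Subtype.ext (funext fun i => by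
        show (if h : i.2.1 < N + 1 ∧ i.2.1 + 1 = n then (a * z ⟨i.1, ⟨i.2.1, h.1⟩, i.2.2⟩) * pv φ (i.1 : V) else 0) =
          a * (if h : i.2.1 < N + 1 ∧ i.2.1 + 1 = n then z ⟨i.1, ⟨i.2.1, h.1⟩, i.2.2⟩ * pv φ (i.1 : V) else 0)
        split_ifs
        · rw [mul_assoc]
        · rw [mul_zero]) }
  ri y := by
    refine Subtype.ext (funext fun i => ?_)
    show (if h : i.2.1 < N + 1 ∧ i.2.1 + 1 = n then y.1 ⟨i.1, i.2.1, i.2.2⟩ * pv φ (i.1 : V) else 0) = y.1 i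
    split_ifs with h
    · exact (y.2 i).1
    · by_cases h1 : i.2.1 + 1 = n
      · have h2 : N < i.2.1 := by
          by_contra h3
          exact h ⟨by omega, h1⟩
        have h3 : (D.Z i.1).n i.2.1 = 0 := (D.Z i.1).n_eq_zero _ (lt_of_le_of_lt (hN _) h2)
        have h4 := i.2.2.2
        omega
      · exact ((y.2 i).2 h1).symm

theorem fpZ_rank (φ : π →* MulAut (W G)) (D : Dat π V) (N : ℕ) (hN : ∀ u, (D.Z u).len ≤ N) (n : ℕ)
    (θ : RP (SP φ) →+ ℂ) : Tt θ (fpZ φ D N hN n) LinearMap.id =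
      ∑ u : ↥D.F, ∑ m ∈ Finset.range (N + 1), if m + 1 = n then ((D.Z u).n m : ℂ) * θ (pv φ (u : V)) else 0 := by
  classical
  unfold Tt tm
  have h0 : ∀ (x : (Σ u : ↥D.F, Σ m : Fin (N + 1), Fin ((D.Z u).n (m : ℕ))) → RP (SP φ)) (u : ↥D.F) (m : Fin (N + 1))
      (j : Fin ((D.Z u).n (m : ℕ))), ((fpZ φ D N hN n).i ∘ₗ LinearMap.id ∘ₗ (fpZ φ D N hN n).r) x ⟨u, m, j⟩ =
      if (m : ℕ) + 1 = n then x ⟨u, m, j⟩ * pv φ (u : V) else 0 := by
    intro x u m j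
    show (if h : (m : ℕ) < N + 1 ∧ (m : ℕ) + 1 = n then x ⟨u, ⟨(m : ℕ), h.1⟩, j⟩ * pv φ (u : V) else 0) = _
    by_cases h : (m : ℕ) + 1 = n
    · rw [dif_pos ⟨m.2, h⟩, if_pos h]
    · rw [dif_neg (fun h' => h h'.2), if_neg h]
  have h1' : ∀ (inst : DecidableEq (Σ u : ↥D.F, Σ m : Fin (N + 1), Fin ((D.Z u).n (m : ℕ)))) (u : ↥D.F) (m : Fin (N + 1))
      (j : Fin ((D.Z u).n (m : ℕ))), (if (m : ℕ) + 1 = n then (@Pi.single (Σ u : ↥D.F, Σ m : Fin (N + 1),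
        Fin ((D.Z u).n (m : ℕ))) (fun _ => RP (SP φ)) _ inst ⟨u, m, j⟩ 1) ⟨u, m, j⟩ * pv φ (u : V) else 0) =
      if (m : ℕ) + 1 = n then pv φ (u : V) else 0 := by
    intro inst u m j
    rw [Pi.single_eq_same, one_mul]
  have h1 : ∀ i : (fpZ φ D N hN n).k, θ (((fpZ φ D N hN n).i ∘ₗ LinearMap.id ∘ₗ (fpZ φ D N hN n).r) (Pi.single i 1) i) =
      if ((i : (Σ u : ↥D.F, Σ m : Fin (N + 1), Fin ((D.Z u).n (m : ℕ)))).2.1 : ℕ) + 1 = n then
        θ (pv φ ((i : (Σ u : ↥D.F, Σ m : Fin (N + 1), Fin ((D.Z u).n (m : ℕ)))).1 : V)) else 0 := by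
    rintro ⟨u, m, j⟩
    refine (congrArg θ ((h0 _ u m j).trans (h1' (Classical.decEq _) u m j))).trans ?_
    rw [apply_ite θ, map_zero]
  rw [Finset.sum_congr rfl fun i _ => h1 i]
  refine (Fintype.sum_sigma' (fun (u : ↥D.F) (i : Σ m : Fin (N + 1), Fin ((D.Z u).n (m : ℕ))) =>
    if (i.1 : ℕ) + 1 = n then θ (pv φ (u : V)) else 0)).symm.symm.trans ?_
  refine Finset.sum_congr rfl fun u _ => ?_
  rw [Fintype.sum_sigma]
  rw [← Fin.sum_univ_eq_sum_range (fun m => if m + 1 = n then ((D.Z u).n m : ℂ) * θ (pv φ (u : V)) else 0)]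
  refine Finset.sum_congr rfl fun m _ => ?_
  show ∑ y : Fin ((D.Z u).n (m : ℕ)), (if (m : ℕ) + 1 = n then θ (pv φ (u : V)) else 0) = _
  rw [Finset.sum_const, Finset.card_univ, Fintype.card_fin, nsmul_eq_mul]
  split_ifs
  · rfl
  · rw [mul_zero]

end Pool.Agent.X250.RF
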