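import Pool.Agent.X250.RF.Cone
import Pool.Agent.X250.RT.Fin

/-!
# The theorem
-/

set_option autoImplicit false
set_option linter.unusedSectionVars false

open scoped Topology

namespace Pool.Agent.X250.RF

open Pool.Agent.W907.SG Pool.Agent.W461.SGN
open Pool.Agent.H919R4.ZS (FinRes augm toRed)
open Pool.Agent.X250.ZS (Cx sm sm_sm sm_inv sm_inj w_ind ps_comm cp ps)
open Pool.Agent.X250.RT

/-- the Euler characteristic of a finite free resolution -/
def chi {H : Type} [Group H] (X : FinRes H) : ℤ := ∑ i ∈ Finset.range (X.len + 1), (-1) ^ i * (X.n i : ℤ)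

theorem chi_eq {H : Type} [Group H] (X : FinRes H) {N : ℕ} (hN : X.len ≤ N) :
    ((chi X : ℤ) : ℂ) = ∑ i ∈ Finset.range (N + 1), (-1) ^ i * (X.n i : ℂ) := by
  unfold chi
  push_cast
  refine Finset.sum_subset ?_ ?_
  · intro n hn
    rw [Finset.mem_range] at hn ⊢
    omega
  · intro n _ hn
    rw [Finset.mem_range, not_lt] at hn
    rw [X.n_eq_zero n (by omega), Nat.cast_zero, mul_zero]

theorem sum_shift (N : ℕ) (c : ℕ → ℂ) : ∑ n ∈ Finset.range (N + 2), (-1 : ℂ) ^ n *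
    ∑ m ∈ Finset.range (N + 1), (if m + 1 = n then c m else 0) = -∑ m ∈ Finset.range (N + 1), (-1) ^ m * c m := by
  simp only [Finset.mul_sum]
  rw [Finset.sum_comm, ← Finset.sum_neg_distrib]
  refine Finset.sum_congr rfl fun m hm => ?_
  rw [Finset.sum_eq_single (m + 1)]
  · rw [if_pos rfl, pow_succ]
    ring
  · intro n _ hn
    rw [if_neg (Ne.symm hn), mul_zero]
  · intro h
    rw [Finset.mem_range] at hm h
    omega

variable {V : Type} {π : Type} [Group π] [MulAction π V]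

theorem main (D : Dat π V) (Y : FinRes π) (hχ : chi Y ≠ 0 ∨ ∃ u, chi (D.Z u) ≠ 0)
    (φ : π →* MulAut (W (⊥ : SimpleGraph V))) (hφ : ∀ g v, φ g (sm ⊥ v) = sm ⊥ (g • v))
    (Γ : Subgroup (W (⊥ : SimpleGraph V) ⋊[φ] π)) [Γ.FiniteIndex] (X : FinRes Γ)
    (hX : ∀ i, Subsingleton (X.homology (toRed Γ) i)) : False := by
  classical
  have hG : ∀ a b : V, ¬ (⊥ : SimpleGraph V).Adj a b := fun a b h => h
  have hc : Com φ := ⟨fun g u v h => absurd h (hG u v), hφ⟩
  obtain ⟨C, p, β, y0, hC, hβ, hy0, hN, hT⟩ := cone hc hG D Y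
  obtain ⟨N, hNe⟩ : ∃ N, N = len0 D Y := ⟨_, rfl⟩
  rw [← hNe] at hN hT
  -- the Euler characteristic for all weights
  have key : ∀ O : Set V, (∀ (g : π) (s : V), g • s ∈ O ↔ s ∈ O) →
      ∀ᶠ x in 𝓝 (1 / 2), ((chi Y : ℤ) : ℂ) = ∑ u : ↥D.F, ((chi (D.Z u) : ℤ) : ℂ) * ((ow O x (u : V) : ℝ) : ℂ) := by
    intro O hO
    have h1 := euler X hX (fun x => TH hc hO x) (x₀ := 1 / 2) (fun a => TH_half hc hO a)
      (fun a => (TH_cont hc hO a).continuousAt) (fun x a b => TH_comm hc hO x a b) C p hN hC β hβ y0 hy0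
    filter_upwards [h1] with x hx
    have h2 : ∀ u : V, sq (TH hc hO x) (pv φ u) = ((ow O x u : ℝ) : ℂ) := fun u => tau_ps hc hO x u
    have h3 : sq (TH hc hO x) 1 = 1 := tau_one hc hO x
    have h4 : ∑ n ∈ Finset.range (N + 1 + 1), (-1 : ℂ) ^ n * ((∑ u : ↥D.F, ∑ m ∈ Finset.range (N + 1),
        if m + 1 = n then ((D.Z u).n m : ℂ) * ((ow O x (u : V) : ℝ) : ℂ) else 0) + Y.n n) = 0 := by
      refine Eq.trans ?_ hx
      refine Finset.sum_congr rfl fun n _ => ?_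
      rw [hT, h3, mul_one]
      simp only [h2]
    have h5 : ∑ n ∈ Finset.range (N + 1 + 1), (-1 : ℂ) ^ n * (Y.n n : ℂ) = ((chi Y : ℤ) : ℂ) := by
      refine (chi_eq Y ?_).symm
      have : Y.len ≤ len0 D Y := Nat.le_add_right _ _
      omega
    have h6 : ∑ n ∈ Finset.range (N + 1 + 1), (-1 : ℂ) ^ n * (∑ u : ↥D.F, ∑ m ∈ Finset.range (N + 1),
        if m + 1 = n then ((D.Z u).n m : ℂ) * ((ow O x (u : V) : ℝ) : ℂ) else 0) =
        -∑ u : ↥D.F, ((chi (D.Z u) : ℤ) : ℂ) * ((ow O x (u : V) : ℝ) : ℂ) := by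
      have h7 : ∀ n, (-1 : ℂ) ^ n * (∑ u : ↥D.F, ∑ m ∈ Finset.range (N + 1),
          if m + 1 = n then ((D.Z u).n m : ℂ) * ((ow O x (u : V) : ℝ) : ℂ) else 0) =
          ∑ u : ↥D.F, (-1 : ℂ) ^ n * ∑ m ∈ Finset.range (N + 1),
            if m + 1 = n then ((D.Z u).n m : ℂ) * ((ow O x (u : V) : ℝ) : ℂ) else 0 := fun n => Finset.mul_sum _ _ _
      rw [Finset.sum_congr rfl fun n _ => h7 n, Finset.sum_comm, ← Finset.sum_neg_distrib]
      refine Finset.sum_congr rfl fun u _ => ?_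
      rw [sum_shift, chi_eq (D.Z u) (N := N) (by rw [hNe]; exact len0_u D Y u), Finset.sum_mul]
      congr 1
      refine Finset.sum_congr rfl fun m _ => ?_
      ring
    simp only [mul_add, Finset.sum_add_distrib] at h4
    rw [h5, h6] at h4
    linear_combination h4
  by_cases hu : ∃ u, chi (D.Z u) ≠ 0
  · obtain ⟨u₀, hu₀⟩ := hu
    have h1 := key {v | ∃ g : π, g • (u₀ : V) = v} (fun g s => by
      constructor
      · rintro ⟨h, hh⟩
        exact ⟨g⁻¹ * h, by rw [mul_smul, hh, inv_smul_smul]⟩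
      · rintro ⟨h, hh⟩
        exact ⟨g * h, by rw [mul_smul, hh]⟩)
    obtain ⟨ε, hε, hb⟩ := Metric.eventually_nhds_iff_ball.1 h1
    have h2 : ∀ x : ℝ, 0 ≤ x → x ≤ 1 → x ∈ Metric.ball (1 / 2 : ℝ) ε → ((chi Y : ℤ) : ℂ) =
        ((chi (D.Z u₀) : ℤ) : ℂ) * (x : ℂ) + ∑ u ∈ Finset.univ.erase u₀, ((chi (D.Z u) : ℤ) : ℂ) * ((1 / 2 : ℝ) : ℂ) := by
      intro x hx0 hx1 hx
      rw [hb x hx, ← Finset.add_sum_erase _ _ (Finset.mem_univ u₀)]
      congr 1
      · congr 2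
        unfold ow
        rw [if_pos ⟨1, one_smul _ _⟩, cl_eq hx0 hx1]
      · refine Finset.sum_congr rfl fun u hu => ?_
        congr 2
        unfold ow
        rw [if_neg]
        rintro ⟨g, hg⟩
        exact (Finset.mem_erase.1 hu).1 (Subtype.ext (D.dis u₀ u₀.2 u u.2 g hg)).symm
    obtain ⟨δ, hδ0, hδ1, hδ2⟩ : ∃ δ : ℝ, 0 < δ ∧ δ ≤ 1 / 4 ∧ δ < ε :=
      ⟨min (ε / 2) (1 / 4), lt_min (by linarith) (by norm_num), min_le_right _ _,
        lt_of_le_of_lt (min_le_left _ _) (by linarith)⟩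
    have h3 := h2 (1 / 2) (by norm_num) (by norm_num) (Metric.mem_ball_self hε)
    have h4 := h2 (1 / 2 + δ) (by linarith) (by linarith) (by
      rw [Metric.mem_ball, Real.dist_eq, add_sub_cancel_left, abs_of_pos hδ0]
      exact hδ2)
    have h5 : ((chi (D.Z u₀) : ℤ) : ℂ) * (δ : ℂ) = 0 := by
      have h6 := h3.symm.trans h4
      push_cast at h6
      linear_combination -h6
    rcases mul_eq_zero.1 h5 with h | h
    · exact hu₀ (by exact_mod_cast h)
    · have : δ = 0 := by exact_mod_cast h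
      linarith
  · push Not at hu
    have h1 := key ∅ (fun g s => by simp)
    obtain ⟨ε, hε, hb⟩ := Metric.eventually_nhds_iff_ball.1 h1
    have h2 := hb (1 / 2) (Metric.mem_ball_self hε)
    have h3 : chi Y ≠ 0 := by
      rcases hχ with h | ⟨u, h⟩
      · exact h
      · exact absurd (hu u) h
    apply h3
    have h4 : ((chi Y : ℤ) : ℂ) = 0 := by
      rw [h2]
      refine Finset.sum_eq_zero fun u _ => ?_
      rw [hu, Int.cast_zero, zero_mul]
    exact_mod_cast h4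

end Pool.Agent.X250.RF
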