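import Pool.Agent.X250.RT.Cone

/-!
# Induction along injective homomorphisms
-/

set_option autoImplicit false
set_option linter.unusedSectionVars false

open scoped Matrix

namespace Pool.Agent.X250.RF

open Pool.Agent.X250.ZS (ext0 ext0_single ext_exact ext0_inj exists_denom')
open Pool.Agent.X250.RT
open Pool.Agent.H919R4.ZS (FinRes augm)

variable {H P : Type} [Group H] [Group P] (f : H →* P) (hf : Function.Injective f)

/-- the integral map -/
noncomputable def jf : MonoidAlgebra ℤ H →+* MonoidAlgebra ℤ P := MonoidAlgebra.mapDomainRingHom ℤ f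

theorem jf_single (h : H) (m : ℤ) : jf f (MonoidAlgebra.single h m) = MonoidAlgebra.single (f h) m := by
  show MonoidAlgebra.mapDomain _ (MonoidAlgebra.single h m) = _
  rw [MonoidAlgebra.mapDomain_single]

/-- the rational map -/
noncomputable def jq : MonoidAlgebra ℤ H →+* RP P := ext0.comp (jf f)

theorem jq_single (h : H) (m : ℤ) : jq f (MonoidAlgebra.single h m) = (m : ℚ) • gp (f h) := by
  show ext0 (jf f _) = _
  rw [jf_single, ext0_single, MonoidAlgebra.smul_single', mul_one]

/-- slices -/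
noncomputable def rsf (w : P) (a : MonoidAlgebra ℤ P) : MonoidAlgebra ℤ H :=
  MonoidAlgebra.comapDomain (fun h : H => w * f h) (fun _ _ h => hf (mul_left_cancel h)) a

theorem rsf_coeff (w : P) (a : MonoidAlgebra ℤ P) (h : H) : (rsf f hf w a).coeff h = a.coeff (w * f h) := rfl

/-- slices, additive version -/
noncomputable def rsH (w : P) : MonoidAlgebra ℤ P →+ MonoidAlgebra ℤ H where
  toFun := rsf f hf w
  map_zero' := MonoidAlgebra.ext (Finsupp.ext fun _ => rfl)
  map_add' _ _ := MonoidAlgebra.ext (Finsupp.ext fun _ => rfl)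

theorem rsH_mul (w : P) (a : MonoidAlgebra ℤ P) (b : MonoidAlgebra ℤ H) :
    rsH f hf w (a * jf f b) = rsH f hf w a * b := by
  induction b using MonoidAlgebra.induction_linear with
  | zero => rw [map_zero, mul_zero, mul_zero, map_zero]
  | add x y hx hy => rw [map_add, mul_add, mul_add, map_add, hx, hy]
  | single g m =>
    refine MonoidAlgebra.ext (Finsupp.ext fun h => ?_)
    show (rsf f hf w (a * jf f (MonoidAlgebra.single g m))).coeff h = (rsf f hf w a * MonoidAlgebra.single g m).coeff h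
    have e1 : w * f h * (f g)⁻¹ = w * f (h * g⁻¹) := by
      rw [map_mul f, map_inv f, mul_assoc]
    rw [rsf_coeff, jf_single, MonoidAlgebra.coeff_mul_single_apply, MonoidAlgebra.coeff_mul_single_apply, rsf_coeff,
      e1]

/-- the cosets -/
abbrev Cs : Type := P ⧸ f.range

theorem out_mul (p : P) : ∃ h : H, p = Quotient.out (QuotientGroup.mk p : Cs f) * f h := by
  have h1 : (Quotient.out (QuotientGroup.mk p : Cs f))⁻¹ * p ∈ f.range := by
    rw [← QuotientGroup.eq]
    exact Quotient.out_eq _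
  obtain ⟨h, hh⟩ := h1
  exact ⟨h, by rw [hh, mul_inv_cancel_left]⟩

theorem mk_mul (c : Cs f) (h : H) : (QuotientGroup.mk (Quotient.out c * f h) : Cs f) = c := by
  have h1 : (QuotientGroup.mk (Quotient.out c) : Cs f) = c := Quotient.out_eq c
  rw [← h1]
  refine (QuotientGroup.eq.2 ?_).symm
  rw [h1, inv_mul_cancel_left]
  exact ⟨h, rfl⟩

theorem rs_ext {a b : MonoidAlgebra ℤ P} (h : ∀ c : Cs f, rsH f hf (Quotient.out c) a = rsH f hf (Quotient.out c) b) :
    a = b := by
  refine MonoidAlgebra.ext (Finsupp.ext fun p => ?_)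
  obtain ⟨g, hg⟩ := out_mul f p
  have h1 := congrArg (fun c : MonoidAlgebra ℤ H => c.coeff g) (h (QuotientGroup.mk p))
  have h2 : a.coeff (Quotient.out (QuotientGroup.mk p : Cs f) * f g) =
      b.coeff (Quotient.out (QuotientGroup.mk p : Cs f) * f g) := h1
  rwa [← hg] at h2

open Classical in
theorem rs_single (c c' : Cs f) (b : MonoidAlgebra ℤ H) :
    rsH f hf (Quotient.out c') (MonoidAlgebra.single (Quotient.out c) 1 * jf f b) = if c' = c then b else 0 := by
  rw [rsH_mul]
  have h1 : rsH f hf (Quotient.out c') (MonoidAlgebra.single (Quotient.out c) 1) = if c' = c then 1 else 0 := by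
    refine MonoidAlgebra.ext (Finsupp.ext fun h => ?_)
    show (rsf f hf (Quotient.out c') (MonoidAlgebra.single (Quotient.out c) 1)).coeff h = _
    rw [rsf_coeff, MonoidAlgebra.coeff_single, Finsupp.single_apply]
    by_cases hc : c' = c
    · subst hc
      rw [if_pos rfl, MonoidAlgebra.one_def, MonoidAlgebra.coeff_single, Finsupp.single_apply]
      by_cases hh : (1 : H) = h
      · rw [if_pos hh, if_pos]
        rw [← hh, map_one, mul_one]
      · rw [if_neg hh, if_neg]
        intro h2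
        apply hh
        refine hf ?_
        rw [map_one]
        exact mul_left_cancel ((mul_one _).trans h2)
    · rw [if_neg hc, if_neg]
      · rfl
      · intro h2
        apply hc
        have h3 := mk_mul f c' h
        rw [← h2] at h3
        have h4 : (QuotientGroup.mk (Quotient.out c) : Cs f) = c := Quotient.out_eq c
        exact h3.symm.trans h4
  rw [h1]
  split_ifs
  · rw [one_mul]
  · rw [zero_mul]

/-- induced fillings -/
theorem jf_fill {a c : ℕ} {D' : Matrix (Fin c) (Fin a) (MonoidAlgebra ℤ H)} (z : Fin a → MonoidAlgebra ℤ P)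
    (hz : ∀ q : Cs f, ∃ y, y ᵥ* D' = fun k => rsH f hf (Quotient.out q) (z k)) : ∃ y, y ᵥ* D'.map (jf f) = z := by
  classical
  choose Y hY using hz
  obtain ⟨F, hF⟩ : ∃ F : Finset (Cs f), ∀ q, q ∉ F → ∀ k, rsH f hf (Quotient.out q) (z k) = 0 := by
    refine ⟨Finset.univ.biUnion fun k => (z k).coeff.support.image fun p => QuotientGroup.mk p, fun q hq k => ?_⟩
    refine MonoidAlgebra.ext (Finsupp.ext fun g => ?_)
    show (rsf f hf (Quotient.out q) (z k)).coeff g = 0
    rw [rsf_coeff]
    by_contra h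
    apply hq
    rw [Finset.mem_biUnion]
    refine ⟨k, Finset.mem_univ _, ?_⟩
    rw [Finset.mem_image]
    exact ⟨_, Finsupp.mem_support_iff.2 h, mk_mul f q g⟩
  refine ⟨fun k => ∑ q ∈ F, MonoidAlgebra.single (Quotient.out q) 1 * jf f (Y q k), ?_⟩
  funext j
  refine rs_ext f hf fun u => ?_
  have h3 : (fun k => ∑ q ∈ F, MonoidAlgebra.single (Quotient.out q) 1 * jf f (Y q k)) ᵥ*
      D'.map (jf f) = fun j => ∑ q ∈ F, MonoidAlgebra.single (Quotient.out q) 1 *
        jf f ((Y q ᵥ* D') j) := by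
    funext j
    rw [Matrix.vecMul, dotProduct]
    have h4 : ∀ k, (∑ q ∈ F, MonoidAlgebra.single (Quotient.out q) 1 * jf f (Y q k)) *
        (D'.map (jf f)) k j =
        ∑ q ∈ F, MonoidAlgebra.single (Quotient.out q) 1 * jf f (Y q k * D' k j) := by
      intro k
      rw [Finset.sum_mul]
      refine Finset.sum_congr rfl fun c _ => ?_
      rw [Matrix.map_apply, map_mul, mul_assoc]
    rw [Finset.sum_congr rfl fun k _ => h4 k, Finset.sum_comm]
    refine Finset.sum_congr rfl fun w _ => ?_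
    rw [← Finset.mul_sum, ← map_sum]
    rfl
  rw [h3, map_sum]
  have h5 : ∀ q ∈ F, rsH f hf (Quotient.out u) (MonoidAlgebra.single (Quotient.out q) 1 * jf f ((Y q ᵥ* D') j)) =
      if u = q then rsH f hf (Quotient.out u) (z j) else 0 := by
    intro q _
    rw [rs_single, hY]
    by_cases h : u = q
    · rw [if_pos h, if_pos h, h]
    · rw [if_neg h, if_neg h]
  rw [Finset.sum_congr rfl h5, Finset.sum_ite_eq]
  by_cases h6 : u ∈ F
  · rw [if_pos h6]
  · rw [if_neg h6, hF u h6 j]

include hf in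
/-- induction preserves exactness -/
theorem jf_exact {a b c : ℕ} {D : Matrix (Fin a) (Fin b) (MonoidAlgebra ℤ H)}
    {D' : Matrix (Fin c) (Fin a) (MonoidAlgebra ℤ H)} (hD : ∀ x, x ᵥ* D = 0 → ∃ y, y ᵥ* D' = x)
    (z : Fin a → MonoidAlgebra ℤ P) (hz : z ᵥ* D.map (jf f) = 0) : ∃ y, y ᵥ* D'.map (jf f) = z := by
  refine jf_fill f hf z fun q => hD _ ?_
  funext j
  have h2 := congrArg (rsH f hf (Quotient.out q)) (congrFun hz j)
  rw [Matrix.vecMul, dotProduct, map_sum, Pi.zero_apply, map_zero] at h2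
  rw [Matrix.vecMul, dotProduct, Pi.zero_apply, ← h2]
  refine Finset.sum_congr rfl fun k _ => ?_
  rw [Matrix.map_apply, rsH_mul]

include hf in
/-- the induced resolution is exact -/
theorem jq_exact (X : FinRes H) (n : ℕ) (y : Fin (X.n (n + 1)) → RP P) (hy : y ᵥ* (X.d n).map (jq f) = 0) :
    ∃ z, z ᵥ* (X.d (n + 1)).map (jq f) = y := by
  have e : ∀ i, (X.d i).map (jq f) = ((X.d i).map (jf f)).map ext0 := by
    intro i
    rw [Matrix.map_map]
    rfl
  rw [e] at hy
  obtain ⟨z, hz⟩ := ext_exact (D' := (X.d (n + 1)).map (jf f))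
    (fun z hz => jf_exact f hf (D' := X.d (n + 1)) (fun x hx => (X.exact_succ n x).1 hx) z hz) y hy
  refine ⟨z, ?_⟩
  rw [e, hz]

/-- the augmentations of the slices -/
noncomputable def lam (w : P) : MonoidAlgebra ℤ P →+ ℤ := (augm H).toAddMonoidHom.comp (rsH f hf w)

theorem lam_apply (w : P) (a : MonoidAlgebra ℤ P) : lam f hf w a = augm H (rsH f hf w a) := rfl

/-- exactness in degree zero -/
theorem jq_exact0 (X : FinRes H) (y : Fin (X.n 0) → RP P)
    (hy : ∀ (w : P) (b : MonoidAlgebra ℤ P) (r : ℚ), ext0 b = r • ∑ j, y j * (X.aug j : RP P) → lam f hf w b = 0) :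
    ∃ z, z ᵥ* (X.d 0).map (jq f) = y := by
  obtain ⟨N, hN, b, hb⟩ := exists_denom' y
  have hN' : (N : ℚ) ≠ 0 := by exact_mod_cast hN
  have h1 : ∀ w, lam f hf w (∑ j, b j * (X.aug j : MonoidAlgebra ℤ P)) = 0 := by
    intro w
    refine hy w _ (N : ℚ) ?_
    rw [map_sum, Finset.smul_sum]
    refine Finset.sum_congr rfl fun j _ => ?_
    rw [map_mul, ← hb, map_intCast, smul_mul_assoc]
  have h2 : ∀ q : Cs f, ∃ y, y ᵥ* X.d 0 = fun k => rsH f hf (Quotient.out q) (b k) := by
    intro q
    refine (X.exact_zero _).1 ?_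
    have h3 := h1 (Quotient.out q)
    rw [lam_apply, map_sum, map_sum] at h3
    rw [← h3]
    refine Finset.sum_congr rfl fun j _ => ?_
    have h4 : (X.aug j : MonoidAlgebra ℤ P) = jf f (X.aug j : MonoidAlgebra ℤ H) := by rw [map_intCast]
    rw [h4, rsH_mul, map_mul, map_intCast, Int.cast_id]
  obtain ⟨z, hz⟩ := jf_fill f hf b h2
  refine ⟨fun k => (N : ℚ)⁻¹ • ext0 (z k), ?_⟩
  funext j
  have h5 : y j = (N : ℚ)⁻¹ • ext0 (b j) := by
    rw [← hb, smul_smul, inv_mul_cancel₀ hN', one_smul]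
  rw [h5, ← hz, Matrix.vecMul, dotProduct, Matrix.vecMul, dotProduct, map_sum, Finset.smul_sum]
  refine Finset.sum_congr rfl fun k _ => ?_
  rw [Matrix.map_apply, map_mul, smul_mul_assoc, Matrix.map_apply]
  rfl

end Pool.Agent.X250.RF
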