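import Pool.Agent.X250.RF.Ind

/-!
# The tree
-/

set_option autoImplicit false
set_option linter.unusedSectionVars false

namespace Pool.Agent.X250.RF

open Pool.Agent.W907.SG Pool.Agent.W461.SGN
open Pool.Agent.X250.ZS (ext0 ext0_single sm sm_sm sm_inv sm_inj ps qs cp cp_empty cp_insert cp_neg ps_comm RW gs)
open Pool.Agent.X250.RT
open Pool.Agent.H919R4.ZS (FinRes augm)

/-- orbit representatives and resolutions of the stabilizers -/
structure Dat (π V : Type) [Group π] [MulAction π V] where
  /-- the representatives -/
  F : Finset V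
  cov : ∀ v : V, ∃ g : π, ∃ u ∈ F, g • u = v
  dis : ∀ u ∈ F, ∀ u' ∈ F, ∀ g : π, g • u = u' → u = u'
  /-- the resolutions -/
  Z : ∀ u : F, FinRes (MulAction.stabilizer π (u : V))

variable {V : Type} {G : SimpleGraph V} {π : Type} [Group π] [MulAction π V] {φ : π →* MulAut (W G)}

/-- the inclusion of the stabilizer -/
noncomputable def fh (φ : π →* MulAut (W G)) (u : V) : MulAction.stabilizer π u →* SP φ :=
  (SemidirectProduct.inr : π →* SP φ).comp (MulAction.stabilizer π u).subtype

theorem fh_inj (u : V) : Function.Injective (fh φ u) :=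
  SemidirectProduct.inr_injective.comp Subtype.val_injective

open Classical in
/-- the component of an element of the group ring in a translate -/
noncomputable def kv (φ : π →* MulAut (W G)) (u v : V) : RP (SP φ) →+ RW G where
  toFun b := MonoidAlgebra.mapDomain (fun p : SP φ => p.left)
    (MonoidAlgebra.ofCoeff (b.coeff.filter fun p => p.right • u = v) : RP (SP φ))
  map_zero' := by
    have : ((0 : RP (SP φ)).coeff.filter fun p => p.right • u = v) = 0 := Finsupp.filter_zero _
    rw [this]
    exact MonoidAlgebra.mapDomain_zero _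
  map_add' a b := by
    have : ((a + b).coeff.filter fun p => p.right • u = v) =
        (a.coeff.filter fun p => p.right • u = v) + (b.coeff.filter fun p => p.right • u = v) := Finsupp.filter_add
    rw [this]
    exact MonoidAlgebra.mapDomain_add _ _ _

open Classical in
theorem kv_single (u v : V) (p : SP φ) (r : ℚ) : kv φ u v (MonoidAlgebra.single p r) =
    if p.right • u = v then MonoidAlgebra.single p.left r else 0 := by
  show MonoidAlgebra.mapDomain _ (MonoidAlgebra.ofCoeff ((Finsupp.single p r).filter fun p => p.right • u = v) :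
    RP (SP φ)) = _
  by_cases h : p.right • u = v
  · have h1 : ((Finsupp.single p r).filter fun p : SP φ => p.right • u = v) = Finsupp.single p r :=
      Finsupp.filter_single_of_pos (fun p : SP φ => p.right • u = v) h
    rw [h1, if_pos h]
    exact MonoidAlgebra.mapDomain_single
  · have h1 : ((Finsupp.single p r).filter fun p : SP φ => p.right • u = v) = 0 :=
      Finsupp.filter_single_of_neg (fun p : SP φ => p.right • u = v) h
    rw [h1, if_neg h]
    exact MonoidAlgebra.mapDomain_zero _

theorem kv_smul (u v : V) (r : ℚ) (a : RP (SP φ)) : kv φ u v (r • a) = r • kv φ u v a := by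
  classical
  induction a using MonoidAlgebra.induction_linear with
  | zero => rw [smul_zero, map_zero, smul_zero]
  | add x y hx hy => rw [smul_add, map_add, map_add, smul_add, hx, hy]
  | single p c =>
    rw [MonoidAlgebra.smul_single', kv_single, kv_single]
    split_ifs
    · rw [MonoidAlgebra.smul_single']
    · rw [smul_zero]

theorem kv_gi (u v : V) {h : π} (hh : h • u = u) (a : RP (SP φ)) : kv φ u v (a * gi φ h) = kv φ u v a := by
  classical
  induction a using MonoidAlgebra.induction_linear with
  | zero => rw [zero_mul]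
  | add x y hx hy => rw [add_mul, map_add, map_add, hx, hy]
  | single p r =>
    rw [MonoidAlgebra.single_mul_single, mul_one, kv_single, kv_single, inr_left]
    have : (p * SemidirectProduct.inr h : SP φ).right • u = p.right • u := by
      show (p.right * h) • u = _
      rw [mul_smul, hh]
    rw [this]

theorem kv_jq (u v : V) (a : RP (SP φ)) (e : MonoidAlgebra ℤ (MulAction.stabilizer π u)) :
    kv φ u v (a * jq (fh φ u) e) = ((augm _ e : ℤ) : ℚ) • kv φ u v a := by
  induction e using MonoidAlgebra.induction_linear with
  | zero => rw [map_zero, mul_zero, map_zero, map_zero, Int.cast_zero, zero_smul]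
  | add x y hx hy => rw [map_add, mul_add, map_add, map_add, Int.cast_add, add_smul, hx, hy]
  | single g m =>
    rw [jq_single, mul_smul_comm, kv_smul]
    have h1 : kv φ u v (a * gp (fh φ u g)) = kv φ u v a := kv_gi u v g.2 a
    rw [h1]
    congr 2
    show _ = MonoidAlgebra.lift ℤ ℤ _ 1 (MonoidAlgebra.single g m)
    rw [MonoidAlgebra.lift_single]
    simp

theorem kv_sm (hφ : Com φ) (u v : V) (a : RP (SP φ)) :
    kv φ u v (a * iW φ (gs G (sm G u))) = kv φ u v a * gs G (sm G v) := by
  classical
  induction a using MonoidAlgebra.induction_linear with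
  | zero => rw [zero_mul, map_zero, zero_mul]
  | add x y hx hy => rw [add_mul, map_add, map_add, add_mul, hx, hy]
  | single p r =>
    rw [iW_single, MonoidAlgebra.single_mul_single, mul_one, kv_single, kv_single]
    have h1 : (p * SemidirectProduct.inl (sm G u) : SP φ).right = p.right := rP_right u p
    have h2 : (p * SemidirectProduct.inl (sm G u) : SP φ).left = p.left * sm G (p.right • u) := rP_left hφ u p
    rw [h1, h2]
    by_cases h : p.right • u = v
    · rw [if_pos h, if_pos h, MonoidAlgebra.single_mul_single, mul_one, h]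
    · rw [if_neg h, if_neg h, zero_mul]

theorem kv_ps (hφ : Com φ) (u v : V) (a : RP (SP φ)) :
    kv φ u v (a * iW φ (ps G u)) = kv φ u v a * ps G v := by
  classical
  have h1 : a * iW φ (ps G u) = (1 / 2 : ℚ) • (a - a * iW φ (gs G (sm G u))) := by
    unfold ps qs
    rw [iW_smul, map_sub, map_one, mul_smul_comm, mul_sub, mul_one]
  have h2 : kv φ u v a * ps G v = (1 / 2 : ℚ) • (kv φ u v a - kv φ u v a * gs G (sm G v)) := by
    unfold ps qs
    rw [mul_smul_comm, mul_sub, mul_one]
  rw [h1, h2, kv_smul, map_sub, kv_sm hφ]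

theorem kv_ne (u v : V) (h : ∀ g : π, g • u ≠ v) (a : RP (SP φ)) : kv φ u v a = 0 := by
  classical
  induction a using MonoidAlgebra.induction_linear with
  | zero => rw [map_zero]
  | add x y hx hy => rw [map_add, hx, hy, add_zero]
  | single p r => rw [kv_single, if_neg (h _)]

theorem kv_sum [DecidableEq V] (u : V) (a : RP (SP φ)) : ∃ S₀ : Finset V, (∀ v, v ∉ S₀ → kv φ u v a = 0) ∧
    ka φ a = ∑ v ∈ S₀, kv φ u v a := by
  induction a using MonoidAlgebra.induction_linear with
  | zero => exact ⟨∅, fun v _ => map_zero _, by rw [map_zero, Finset.sum_empty]⟩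
  | add x y hx hy =>
    obtain ⟨S, h1, h2⟩ := hx
    obtain ⟨T, h3, h4⟩ := hy
    refine ⟨S ∪ T, fun v hv => ?_, ?_⟩
    · rw [map_add, h1 v (fun h => hv (Finset.mem_union_left _ h)), h3 v (fun h => hv (Finset.mem_union_right _ h)),
        add_zero]
    · rw [map_add, h2, h4]
      simp only [map_add, Finset.sum_add_distrib]
      congr 1
      · exact Finset.sum_subset Finset.subset_union_left fun v _ hv => h1 v hv
      · exact Finset.sum_subset Finset.subset_union_right fun v _ hv => h3 v hv
  | single p r =>
    refine ⟨{p.right • u}, fun v hv => ?_, ?_⟩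
    · rw [kv_single, if_neg]
      intro h
      exact hv (Finset.mem_singleton.2 h.symm)
    · rw [Finset.sum_singleton, kv_single, if_pos rfl, ka_single]

/-- the coefficients are the augmentations of the slices -/
theorem kv_lam (u : V) (w : SP φ) (b : MonoidAlgebra ℤ (SP φ)) :
    (kv φ u (w.right • u) (ext0 b)).coeff w.left = ((lam (fh φ u) (fh_inj u) w b : ℤ) : ℚ) := by
  classical
  induction b using MonoidAlgebra.induction_linear with
  | zero =>
    rw [map_zero, map_zero, map_zero, Int.cast_zero]
    rfl
  | add x y hx hy =>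
    rw [map_add, map_add, map_add, Int.cast_add, ← hx, ← hy]
    rfl
  | single p m =>
    rw [ext0_single, kv_single, lam_apply]
    by_cases h : p.right • u = w.right • u
    · rw [if_pos h, MonoidAlgebra.coeff_single, Finsupp.single_apply]
      by_cases h2 : p.left = w.left
      · rw [if_pos h2]
        have h3 : w.right⁻¹ * p.right ∈ MulAction.stabilizer π u := by
          rw [MulAction.mem_stabilizer_iff, mul_smul, h, inv_smul_smul]
        have h4 : w * fh φ u ⟨_, h3⟩ = p := by
          refine SemidirectProduct.ext ?_ ?_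
          · show w.left * φ w.right 1 = p.left
            rw [map_one, mul_one, h2]
          · show w.right * (w.right⁻¹ * p.right) = p.right
            rw [mul_inv_cancel_left]
        have h5 : rsH (fh φ u) (fh_inj u) w (MonoidAlgebra.single p m) = MonoidAlgebra.single ⟨_, h3⟩ m := by
          refine MonoidAlgebra.ext (Finsupp.ext fun k => ?_)
          show (MonoidAlgebra.single p m).coeff (w * fh φ u k) = _
          rw [MonoidAlgebra.coeff_single, MonoidAlgebra.coeff_single, Finsupp.single_apply, Finsupp.single_apply]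
          by_cases hk : (⟨_, h3⟩ : MulAction.stabilizer π u) = k
          · rw [if_pos hk, if_pos]
            rw [← hk, h4]
          · rw [if_neg hk, if_neg]
            intro h6
            rw [← h4] at h6
            exact hk (fh_inj u (mul_left_cancel h6))
        rw [h5]
        congr 1
        show _ = MonoidAlgebra.lift ℤ ℤ _ 1 (MonoidAlgebra.single _ m)
        rw [MonoidAlgebra.lift_single]
        simp
      · rw [if_neg h2]
        have h5 : rsH (fh φ u) (fh_inj u) w (MonoidAlgebra.single p m) = 0 := by
          refine MonoidAlgebra.ext (Finsupp.ext fun k => ?_)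
          show (MonoidAlgebra.single p m).coeff (w * fh φ u k) = _
          rw [MonoidAlgebra.coeff_single, Finsupp.single_apply, if_neg]
          · rfl
          · intro h6
            apply h2
            rw [h6]
            exact inr_left w k
        rw [h5, map_zero, Int.cast_zero]
    · rw [if_neg h]
      have h5 : rsH (fh φ u) (fh_inj u) w (MonoidAlgebra.single p m) = 0 := by
        refine MonoidAlgebra.ext (Finsupp.ext fun k => ?_)
        show (MonoidAlgebra.single p m).coeff (w * fh φ u k) = _
        rw [MonoidAlgebra.coeff_single, Finsupp.single_apply, if_neg]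
        · rfl
        · intro h6
          apply h
          rw [h6]
          show (w.right * (k : π)) • u = w.right • u
          rw [mul_smul, MulAction.mem_stabilizer_iff.1 k.2]
      rw [h5, map_zero, Int.cast_zero]
      rfl

/-- the orientation -/
def ori0 (hG : ∀ a b, ¬ G.Adj a b) : Ori G := ⟨fun _ _ => 1, fun _ _ => one_mul _, fun s t h => absurd h (hG s t)⟩

/-- the map from the chains in degree one of the tree is injective -/
theorem tree_inj [DecidableEq V] (hφ : Com φ) (hG : ∀ a b, ¬ G.Adj a b) (D : Dat π V) (b : ↥D.F → RP (SP φ))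
    (hb : ∀ u : ↥D.F, b u * iW φ (ps G (u : V)) = b u) (hk : ka φ (∑ u, b u) = 0) :
    ∀ (u : ↥D.F) (v : V), kv φ (u : V) v (b u) = 0 := by
  classical
  choose S₀ hS₀ hsum using fun u : ↥D.F => kv_sum (φ := φ) (u : V) (b u)
  obtain ⟨S, hS⟩ : ∃ S : Finset V, ∀ u, S₀ u ⊆ S :=
    ⟨Finset.univ.biUnion S₀, fun u => Finset.subset_biUnion_of_mem S₀ (Finset.mem_univ u)⟩
  obtain ⟨X, hX⟩ : ∃ X : V → RW G, ∀ v, X v = ∑ u : ↥D.F, kv φ (u : V) v (b u) := ⟨_, fun v => rfl⟩
  have hXS : ∀ v, v ∉ S → X v = 0 := by
    intro v hv
    rw [hX]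
    exact Finset.sum_eq_zero fun u _ => hS₀ u v fun h => hv (hS u h)
  have hXp : ∀ v, X v * ps G v = X v := by
    intro v
    rw [hX, Finset.sum_mul]
    refine Finset.sum_congr rfl fun u _ => ?_
    rw [← kv_ps hφ, hb]
  have hXs : ∑ v ∈ S, X v = 0 := by
    rw [map_sum] at hk
    rw [← hk]
    simp only [hX]
    rw [Finset.sum_comm]
    refine Finset.sum_congr rfl fun u _ => ?_
    rw [hsum u]
    exact (Finset.sum_subset (hS u) fun v _ hv => hS₀ u v hv).symm
  have hcp : ∀ v : V, cp (ps_comm G) {v} = ps G v := by
    intro v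
    have e := cp_insert (ps_comm G) (Finset.notMem_empty v) (by simp)
    rw [cp_empty, mul_one] at e
    exact e
  obtain ⟨x, hx⟩ : ∃ x : Finset V → RW G, ∀ T, x T = if T.card = 1 then ∑ v ∈ T, X v else 0 := ⟨_, fun T => rfl⟩
  have hx1 : ∀ v, x {v} = X v := by
    intro v
    rw [hx, if_pos (Finset.card_singleton v), Finset.sum_singleton]
  have hx0 : ∀ T : Finset V, T.card ≠ 1 → x T = 0 := fun T hT => by rw [hx, if_neg hT]
  have hC : ChF S (0 + 1) x := by
    refine ⟨fun T => ?_, fun T hT => hx0 T hT, fun T hT => ?_⟩
    · by_cases h : T.card = 1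
      · obtain ⟨v, rfl⟩ := Finset.card_eq_one.1 h
        rw [hx1, hcp, hXp]
      · rw [hx0 T h, zero_mul]
    · by_cases h : T.card = 1
      · obtain ⟨v, rfl⟩ := Finset.card_eq_one.1 h
        rw [hx1]
        exact hXS v fun h' => hT (Finset.singleton_subset_iff.2 h')
      · exact hx0 T h
  have hd : dF (ori0 hG) S x = 0 := by
    funext T
    show ∑ v ∈ S \ T, eo (ori0 hG) v T • x (insert v T) = 0
    rcases T.eq_empty_or_nonempty with rfl | hT
    · rw [Finset.sdiff_empty, ← hXs]
      refine Finset.sum_congr rfl fun v _ => ?_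
      have h1 : insert v (∅ : Finset V) = {v} := rfl
      rw [h1, hx1]
      show (∏ t ∈ (∅ : Finset V), (ori0 hG).σ t v) • X v = X v
      rw [Finset.prod_empty, one_smul]
    · refine Finset.sum_eq_zero fun v hv => ?_
      rw [hx0, smul_zero]
      rw [Finset.card_insert_of_notMem (Finset.mem_sdiff.1 hv).2]
      have := hT.card_pos
      omega
  obtain ⟨S', y, hSS, hy, hyx⟩ := exactF hC hd
  have hy0 : y = 0 := by
    funext T
    by_cases h : T.card = 0 + 2
    · refine hy.clique ?_
      intro hcl
      obtain ⟨a, b, hab, rfl⟩ := Finset.card_eq_two.1 h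
      exact hG a b (hcl (by simp) (by simp) hab)
    · exact hy.cd T h
  have hX0 : ∀ v, X v = 0 := by
    intro v
    rw [← hx1, ← hyx, hy0]
    show ∑ w ∈ S' \ {v}, eo (ori0 hG) w {v} • (0 : Finset V → RW G) (insert w {v}) = 0
    exact Finset.sum_eq_zero fun w _ => smul_zero _
  intro u v
  by_cases h : ∃ g : π, g • (u : V) = v
  · obtain ⟨g, hg⟩ := h
    have h1 := hX0 v
    rw [hX, Finset.sum_eq_single u] at h1
    · exact h1
    · intro u' _ hu'
      refine kv_ne _ _ (fun g' hg' => hu' ?_) _
      refine Subtype.ext (D.dis u' u'.2 u u.2 (g⁻¹ * g') ?_)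
      rw [mul_smul, hg', ← hg, inv_smul_smul]
    · intro h2
      exact absurd (Finset.mem_univ u) h2
  · push Not at h
    exact kv_ne _ _ h _

end Pool.Agent.X250.RF
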